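import Pool.Agent.J4.H80.BGK.Conv
import Pool.Agent.H217R3.AK.Bsg

set_option autoImplicit false

/-! The core of the flattening lemma. -/

namespace Pool.Agent.J4.H80.BGK

open Finset
open scoped Pointwise Combinatorics.Additive

variable {p : ℕ} [Fact p.Prime]

lemma absorb {K : ℝ} (hK : 2 ^ 31 ≤ K) {c : ℝ} (hc : c ≤ 2 ^ 31) (n : ℕ) : c * K ^ n ≤ K ^ (n + 1) := by
  have hK0 : (0 : ℝ) ≤ K := by
    have : (0 : ℝ) < 2 ^ 31 := by norm_num
    linarith
  rw [pow_succ, mul_comm]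
  exact mul_le_mul_of_nonneg_left (hc.trans hK) (pow_nonneg hK0 n)

/-- a set `B` of small doubling which carries a large part of `ν` -/
theorem heavy {ν : ZMod p → ℝ} (hν : ∀ x, 0 ≤ ν x) (h1 : ∑ x, ν x = 1) {N K : ℝ} (hN : 0 < N)
    (h2 : ∑ x, ν x ^ 2 = 1 / N) (hK : 2 ^ 31 ≤ K) (hcon : 1 / (K ^ 2 * N) ≤ ∑ x, cv ν ν x ^ 2) :
    ∃ B : Finset (ZMod p), B.Nonempty ∧ N ≤ K ^ 17 * B.card ∧ (B.card : ℝ) ≤ K ^ 3 * N ∧
      ((B - B).card : ℝ) ≤ K ^ 131 * B.card ∧ 1 ≤ K ^ 20 * ∑ x ∈ B, ν x := by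
  have hK1 : 1 ≤ K := le_trans (by norm_num) hK
  have hK0 : 0 < K := by linarith
  obtain ⟨A, hA1, hA2, hA3⟩ := mid hν h1 hN h2 hK1 hcon
  obtain ⟨E, hE⟩ : ∃ E : ℝ, E = ((A.addEnergy A : ℕ) : ℝ) := ⟨_, rfl⟩
  rw [← hE] at hA3
  have hE0 : 0 < E := by
    by_contra h
    have h3 : 24010 * K ^ 6 * E ≤ 0 := mul_nonpos_of_nonneg_of_nonpos (by positivity) (not_lt.1 h)
    have h4 : 0 < N ^ 3 := by positivity
    linarith
  have hAne : A.Nonempty := by
    rw [hE] at hE0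
    have h3 : 0 < A.addEnergy A := by exact_mod_cast hE0
    exact (Finset.addEnergy_pos_iff.1 h3).1
  obtain ⟨a, ha⟩ : ∃ a : ℝ, a = A.card := ⟨_, rfl⟩
  rw [← ha] at hA2
  have ha0 : 0 < a := by rw [ha]; exact_mod_cast hAne.card_pos
  have hEa : a ^ 3 ≤ K ^ 13 * E := by
    calc a ^ 3 ≤ (40 * K ^ 2 * N) ^ 3 := pow_le_pow_left₀ ha0.le hA2 3
      _ = 64000 * K ^ 6 * N ^ 3 := by ring
      _ ≤ 64000 * K ^ 6 * (24010 * K ^ 6 * E) := mul_le_mul_of_nonneg_left hA3 (by positivity)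
      _ = (64000 * 24010 * K ^ 12) * E := by ring
      _ ≤ K ^ 13 * E := mul_le_mul_of_nonneg_right (absorb hK (by norm_num) 12) hE0.le
  have hEcard : E ≤ a ^ 3 := by
    have h3 := Finset.addEnergy_eq_card_filter A A
    rw [hE, ha]
    have h4 : A.addEnergy A ≤ A.card ^ 3 := by
      rw [h3]
      have h5 : (((A ×ˢ A) ×ˢ A ×ˢ A).filter (fun x => x.1.1 + x.1.2 = x.2.1 + x.2.2)).card ≤
          ((A ×ˢ A) ×ˢ A).card := by
        apply card_le_card_of_injOn (fun q => (q.1, q.2.1))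
        · intro q hq
          rw [mem_coe, mem_filter, mem_product, mem_product, mem_product] at hq
          rw [mem_coe, mem_product, mem_product]
          exact ⟨hq.1.1, hq.1.2.1⟩
        · intro q hq r hr h
          rw [mem_coe, mem_filter] at hq hr
          have h6 := Prod.mk.inj h
          have e1 := hq.2
          have e2 := hr.2
          refine Prod.ext h6.1 (Prod.ext h6.2 ?_)
          rw [h6.1, h6.2] at e1
          exact add_left_cancel (e1.symm.trans e2)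
      refine h5.trans (le_of_eq ?_)
      rw [card_product, card_product]
      ring
    exact_mod_cast h4
  have hNa : N ≤ K ^ 3 * a := by
    have h3 : N ^ 3 ≤ (K ^ 3 * a) ^ 3 := by
      calc N ^ 3 ≤ 24010 * K ^ 6 * E := hA3
        _ ≤ 24010 * K ^ 6 * a ^ 3 := mul_le_mul_of_nonneg_left hEcard (by positivity)
        _ ≤ K ^ 7 * a ^ 3 := mul_le_mul_of_nonneg_right (absorb hK (by norm_num) 6) (by positivity)
        _ ≤ K ^ 9 * a ^ 3 := mul_le_mul_of_nonneg_right (pow_le_pow_right₀ hK1 (by norm_num)) (by positivity)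
        _ = _ := by ring
    exact le_of_pow_le_pow_left₀ (by norm_num) (by positivity) h3
  obtain ⟨B, hBA, hBne, hB1, hB2⟩ := Pool.Agent.H217R3.AK.bsg A hAne (K ^ 13) (by positivity) (by
    rw [← ha, ← hE]
    exact hEa)
  obtain ⟨b, hb⟩ : ∃ b : ℝ, b = B.card := ⟨_, rfl⟩
  rw [← ha, ← hb] at hB1
  rw [← hb] at hB2
  have hb0 : 0 < b := by rw [hb]; exact_mod_cast hBne.card_pos
  have hab : a ≤ K ^ 14 * b := hB1.trans (mul_le_mul_of_nonneg_right (absorb hK (by norm_num) 13) hb0.le)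
  have hNb : N ≤ K ^ 17 * b := by
    calc N ≤ K ^ 3 * a := hNa
      _ ≤ K ^ 3 * (K ^ 14 * b) := mul_le_mul_of_nonneg_left hab (by positivity)
      _ = _ := by ring
  have h40 : 40 * K ^ 2 * N ≤ K ^ 3 * N := mul_le_mul_of_nonneg_right (absorb hK (by norm_num) 2) hN.le
  refine ⟨B, hBne, by rw [← hb]; exact hNb, ?_, ?_, ?_⟩
  · calc (B.card : ℝ) ≤ A.card := by exact_mod_cast card_le_card hBA
      _ = a := ha.symm
      _ ≤ _ := hA2
      _ ≤ _ := h40
  · rw [← hb]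
    refine hB2.trans (mul_le_mul_of_nonneg_right ?_ hb0.le)
    rw [← pow_mul]
    exact absorb hK (by norm_num) 130
  · have h3 : b * (1 / (K ^ 3 * N)) ≤ ∑ x ∈ B, ν x := by
      calc b * (1 / (K ^ 3 * N)) = ∑ x ∈ B, 1 / (K ^ 3 * N) := by rw [sum_const, nsmul_eq_mul, hb]
        _ ≤ ∑ x ∈ B, ν x := by
            refine sum_le_sum fun x hx => le_trans ?_ (hA1 x (hBA hx))
            exact one_div_le_one_div_of_le (by positivity) h40
    have h4 : K ^ 20 * (b * (1 / (K ^ 3 * N))) = K ^ 17 * b / N := by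
      field_simp
    calc (1 : ℝ) ≤ K ^ 17 * b / N := by rw [le_div_iff₀ hN, one_mul]; exact hNb
      _ = K ^ 20 * (b * (1 / (K ^ 3 * N))) := h4.symm
      _ ≤ _ := mul_le_mul_of_nonneg_left h3 (by positivity)

lemma sum_dil (ν : ZMod p → ℝ) {h : ZMod p} (hh : h ≠ 0) (B : Finset (ZMod p)) :
    ∑ x ∈ dil h B, ν x = ∑ x ∈ B, ν (h * x) := by
  unfold dil
  rw [sum_image]
  intro x _ y _ hxy
  exact mul_right_injective₀ hh hxy

/-- many ratios `d` of elements of `H` have a small set `B - d B` -/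
theorem ratios {ν : ZMod p → ℝ} (hν : ∀ x, 0 ≤ ν x) (h1 : ∑ x, ν x = 1) {N K : ℝ} (hN : 0 < N)
    (h2 : ∑ x, ν x ^ 2 = 1 / N) (hK : 2 ^ 31 ≤ K) {B : Finset (ZMod p)}
    (hB2 : (B.card : ℝ) ≤ K ^ 3 * N) (hB3 : ((B - B).card : ℝ) ≤ K ^ 131 * B.card)
    (hB4 : 1 ≤ K ^ 20 * ∑ x ∈ B, ν x) (H : Finset (ZMod p)) (hH0 : ∀ h ∈ H, h ≠ 0) (hHne : H.Nonempty)
    (hinv : ∀ h ∈ H, K ^ 21 * ∑ x, |ν (h * x) - ν x| ≤ 1) :
    ∃ D : Finset (ZMod p), (H.card : ℝ) ≤ K ^ 43 * D.card ∧ ∀ d ∈ D, Sm B (K ^ 350) d := by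
  classical
  have hK1 : 1 ≤ K := le_trans (by norm_num) hK
  have hK0 : 0 < K := by linarith
  obtain ⟨ρ, hρ⟩ : ∃ ρ : ℝ, ρ = 1 / K ^ 21 := ⟨_, rfl⟩
  have hρ0 : 0 < ρ := by rw [hρ]; positivity
  have hmass : ∀ h ∈ H, ρ ≤ ∑ x ∈ dil h B, ν x := by
    intro h hh
    rw [sum_dil ν (hH0 h hh)]
    have h3 : ∑ x ∈ B, ν x ≤ ∑ x ∈ B, ν (h * x) + ∑ x, |ν (h * x) - ν x| := by
      calc ∑ x ∈ B, ν x ≤ ∑ x ∈ B, (ν (h * x) + |ν (h * x) - ν x|) := by
            refine sum_le_sum fun x _ => ?_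
            have := neg_abs_le (ν (h * x) - ν x)
            linarith
        _ = ∑ x ∈ B, ν (h * x) + ∑ x ∈ B, |ν (h * x) - ν x| := sum_add_distrib
        _ ≤ _ := by
            have h4 : ∑ x ∈ B, |ν (h * x) - ν x| ≤ ∑ x, |ν (h * x) - ν x| :=
              sum_le_sum_of_subset_of_nonneg (subset_univ _) fun x _ _ => abs_nonneg (ν (h * x) - ν x)
            linarith
    have h4 := hinv h hh
    obtain ⟨y, hy⟩ : ∃ y : ℝ, y = ∑ x, |ν (h * x) - ν x| := ⟨_, rfl⟩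
    obtain ⟨z, hz⟩ : ∃ z : ℝ, z = ∑ x ∈ B, ν x := ⟨_, rfl⟩
    rw [← hy] at h3 h4
    rw [← hz] at h3 hB4
    have h5 : 2 * ρ ≤ z := by
      rw [hρ]
      have h6 : 2 * (1 / K ^ 21) ≤ 1 / K ^ 20 := by
        rw [mul_one_div, div_le_div_iff₀ (by positivity) (by positivity), one_mul]
        exact absorb hK (by norm_num) 20
      refine h6.trans ?_
      rw [div_le_iff₀ (by positivity)]
      linarith
    have h7 : y ≤ ρ := by
      rw [hρ, le_div_iff₀ (by positivity)]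
      linarith
    linarith
  obtain ⟨w, hw⟩ : ∃ w : ZMod p → ZMod p → ℝ, w = fun h h' => ∑ x ∈ dil h B ∩ dil h' B, ν x := ⟨_, rfl⟩
  have hw1 : ∀ h h', w h h' ≤ 1 := by
    intro h h'
    rw [hw, ← h1]
    exact sum_le_sum_of_subset_of_nonneg (subset_univ _) fun x _ _ => hν x
  obtain ⟨n, hn⟩ : ∃ n : ℝ, n = H.card := ⟨_, rfl⟩
  have hn0 : 0 < n := by rw [hn]; exact_mod_cast hHne.card_pos
  have hcs : (n * ρ) ^ 2 ≤ ∑ h' ∈ H, ∑ h ∈ H, w h h' := by
    obtain ⟨F, hF⟩ : ∃ F : ZMod p → ℝ, F = fun x => ∑ h ∈ H, if x ∈ dil h B then (1 : ℝ) else 0 := ⟨_, rfl⟩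
    have h3 : ∑ x, ν x * F x = ∑ h ∈ H, ∑ x ∈ dil h B, ν x := by
      rw [hF]
      simp only [mul_sum, mul_ite, mul_one, mul_zero]
      rw [sum_comm]
      refine sum_congr rfl fun h _ => ?_
      rw [← sum_filter]
      refine sum_congr ?_ fun _ _ => rfl
      ext x
      simp
    have h4 : ∑ x, ν x * F x ^ 2 = ∑ h' ∈ H, ∑ h ∈ H, w h h' := by
      rw [hF, hw]
      dsimp only
      have h5 : ∀ x, ν x * (∑ h ∈ H, if x ∈ dil h B then (1 : ℝ) else 0) ^ 2 =
          ∑ h' ∈ H, ∑ h ∈ H, if x ∈ dil h B ∩ dil h' B then ν x else 0 := by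
        intro x
        rw [sq, sum_mul_sum, mul_sum]
        refine sum_congr rfl fun h' _ => ?_
        rw [mul_sum]
        refine sum_congr rfl fun h _ => ?_
        by_cases c1 : x ∈ dil h B
        · by_cases c2 : x ∈ dil h' B
          · rw [if_pos c1, if_pos c2, if_pos (mem_inter.2 ⟨c1, c2⟩)]; ring
          · rw [if_neg c2, if_neg (fun h => c2 (mem_inter.1 h).2)]; ring
        · rw [if_neg c1, if_neg (fun h => c1 (mem_inter.1 h).1)]; ring
      simp only [h5]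
      rw [sum_comm]
      refine sum_congr rfl fun h' _ => ?_
      rw [sum_comm]
      refine sum_congr rfl fun h _ => ?_
      rw [← sum_filter]
      refine sum_congr ?_ fun _ _ => rfl
      ext x
      simp
    rw [← h4]
    have h5 := sum_mul_sq_le_sq_mul_sq univ (fun x => √(ν x)) (fun x => √(ν x) * F x)
    have e1 : ∀ x, √(ν x) * (√(ν x) * F x) = ν x * F x := fun x => by
      rw [← mul_assoc, Real.mul_self_sqrt (hν x)]
    have e2 : ∀ x, √(ν x) ^ 2 = ν x := fun x => Real.sq_sqrt (hν x)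
    have e3 : ∀ x, (√(ν x) * F x) ^ 2 = ν x * F x ^ 2 := fun x => by
      rw [mul_pow, Real.sq_sqrt (hν x)]
    simp only [e1, e2, e3, h1, one_mul] at h5
    refine le_trans ?_ h5
    apply pow_le_pow_left₀ (by positivity)
    rw [h3]
    calc n * ρ = ∑ h ∈ H, ρ := by rw [sum_const, nsmul_eq_mul, hn]
      _ ≤ _ := sum_le_sum hmass
  obtain ⟨h', hh', hbig⟩ : ∃ h' ∈ H, n * ρ ^ 2 ≤ ∑ h ∈ H, w h h' := by
    by_contra hcon
    push Not at hcon
    have h3 : ∑ h' ∈ H, ∑ h ∈ H, w h h' < ∑ h' ∈ H, n * ρ ^ 2 := sum_lt_sum_of_nonempty hHne hcon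
    rw [sum_const, nsmul_eq_mul, ← hn] at h3
    have h4 : (n * ρ) ^ 2 = n * (n * ρ ^ 2) := by ring
    rw [h4] at hcs
    exact absurd hcs (not_le.2 h3)
  have hh'0 := hH0 h' hh'
  obtain ⟨H1, hH1⟩ : ∃ H1 : Finset (ZMod p), H1 = H.filter (fun h => ρ ^ 2 / 2 ≤ w h h') := ⟨_, rfl⟩
  have hcard : n * (ρ ^ 2 / 2) ≤ H1.card := by
    have h3 : ∑ h ∈ H, w h h' ≤ H1.card + n * (ρ ^ 2 / 2) := by
      rw [← sum_filter_add_sum_filter_not H (fun h => ρ ^ 2 / 2 ≤ w h h'), ← hH1]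
      apply add_le_add
      · calc ∑ h ∈ H1, w h h' ≤ ∑ h ∈ H1, 1 := sum_le_sum fun h _ => hw1 h h'
          _ = _ := by rw [sum_const, nsmul_eq_mul, mul_one]
      · calc ∑ h ∈ H.filter (fun h => ¬ ρ ^ 2 / 2 ≤ w h h'), w h h' ≤
              ∑ h ∈ H.filter (fun h => ¬ ρ ^ 2 / 2 ≤ w h h'), ρ ^ 2 / 2 := by
              refine sum_le_sum fun h hh => ?_
              rw [mem_filter] at hh
              exact (not_le.1 hh.2).le
          _ = ((H.filter (fun h => ¬ ρ ^ 2 / 2 ≤ w h h')).card : ℝ) * (ρ ^ 2 / 2) := by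
              rw [sum_const, nsmul_eq_mul]
          _ ≤ _ := by
              apply mul_le_mul_of_nonneg_right _ (by positivity)
              rw [hn]
              exact_mod_cast card_filter_le _ _
    linarith
  refine ⟨H1.image (fun h => h'⁻¹ * h), ?_, ?_⟩
  · rw [card_image_of_injective _ (mul_right_injective₀ (inv_ne_zero hh'0)), ← hn]
    have h3 : n ≤ K ^ 43 * (n * (ρ ^ 2 / 2)) := by
      have h4 : K ^ 43 * (n * (ρ ^ 2 / 2)) = n * (K / 2) := by
        rw [hρ]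
        field_simp
      rw [h4]
      have h5 : 1 ≤ K / 2 := by
        have : (2 : ℝ) ≤ 2 ^ 31 := by norm_num
        linarith
      nlinarith
    exact h3.trans (mul_le_mul_of_nonneg_left hcard (by positivity))
  · intro d hd
    rw [mem_image] at hd
    obtain ⟨h, hh, rfl⟩ := hd
    rw [hH1, mem_filter] at hh
    have hh0 := hH0 h hh.1
    obtain ⟨S, hS⟩ : ∃ S : Finset (ZMod p), S = dil h B ∩ dil h' B := ⟨_, rfl⟩
    obtain ⟨σ, hσ⟩ : ∃ σ : ℝ, σ = S.card := ⟨_, rfl⟩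
    obtain ⟨b, hb⟩ : ∃ b : ℝ, b = B.card := ⟨_, rfl⟩
    have hb00 : 0 ≤ b := by rw [hb]; exact Nat.cast_nonneg _
    -- the intersection is large
    have hS1 : (ρ ^ 2 / 2) ^ 2 ≤ σ * (1 / N) := by
      have h3 : ρ ^ 2 / 2 ≤ ∑ x ∈ S, ν x := by
        rw [hS]
        have := hh.2
        rw [hw] at this
        exact this
      calc (ρ ^ 2 / 2) ^ 2 ≤ (∑ x ∈ S, ν x) ^ 2 := pow_le_pow_left₀ (by positivity) h3 2
        _ ≤ S.card * ∑ x ∈ S, ν x ^ 2 := sq_sum_le_card_mul_sum_sq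
        _ ≤ S.card * ∑ x, ν x ^ 2 := by
            apply mul_le_mul_of_nonneg_left _ (Nat.cast_nonneg _)
            exact sum_le_sum_of_subset_of_nonneg (subset_univ _) fun x _ _ => sq_nonneg _
        _ = _ := by rw [h2, hσ]
    have hS2 : b ≤ K ^ 88 * σ := by
      have h3 : N ≤ K ^ 85 * σ := by
        have h4 : (ρ ^ 2 / 2) ^ 2 * N ≤ σ := by
          have := mul_le_mul_of_nonneg_right hS1 hN.le
          rw [mul_assoc σ, one_div, inv_mul_cancel₀ hN.ne', mul_one] at this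
          exact this
        calc N ≤ K ^ 85 * ((ρ ^ 2 / 2) ^ 2 * N) := by
              have h5 : K ^ 85 * ((ρ ^ 2 / 2) ^ 2 * N) = (K / 4) * N := by
                rw [hρ]
                field_simp
                norm_num
              rw [h5]
              have h6 : 1 ≤ K / 4 := by
                have : (4 : ℝ) ≤ 2 ^ 31 := by norm_num
                linarith
              nlinarith
          _ ≤ _ := mul_le_mul_of_nonneg_left h4 (by positivity)
      calc b ≤ K ^ 3 * N := by rw [hb]; exact hB2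
        _ ≤ K ^ 3 * (K ^ 85 * σ) := mul_le_mul_of_nonneg_left h3 (by positivity)
        _ = _ := by ring
    -- the triangle inequality
    have hT := Finset.ruzsa_triangle_inequality_sub_sub_sub (dil h' B) S (dil h B)
    have hT1 : (dil h' B - dil h B).card = (B - dil (h'⁻¹ * h) B).card := by
      have h3 : dil h B = dil h' (dil (h'⁻¹ * h) B) := by
        rw [dil_dil, mul_inv_cancel_left₀ hh'0]
      rw [h3, ← dil_sub, card_dil hh'0]
    have hT2 : (dil h' B - S).card ≤ (B - B).card := by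
      calc (dil h' B - S).card ≤ (dil h' B - dil h' B).card := by
            apply card_le_card
            apply sub_subset_sub_left
            rw [hS]
            exact inter_subset_right
        _ = _ := by rw [← dil_sub, card_dil hh'0]
    have hT3 : (dil h B - S).card ≤ (B - B).card := by
      calc (dil h B - S).card ≤ (dil h B - dil h B).card := by
            apply card_le_card
            apply sub_subset_sub_left
            rw [hS]
            exact inter_subset_left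
        _ = _ := by rw [← dil_sub, card_dil hh0]
    rw [hT1] at hT
    have hT4 : ((B - dil (h'⁻¹ * h) B).card : ℝ) * σ ≤ (K ^ 131 * b) ^ 2 := by
      calc ((B - dil (h'⁻¹ * h) B).card : ℝ) * σ ≤ (dil h' B - S).card * (dil h B - S).card := by
            rw [hσ]
            exact_mod_cast hT
        _ ≤ (B - B).card * (B - B).card := by
            apply mul_le_mul _ _ (Nat.cast_nonneg _) (Nat.cast_nonneg _)
            · exact_mod_cast hT2
            · exact_mod_cast hT3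
        _ ≤ (K ^ 131 * b) * (K ^ 131 * b) := by
            rw [← hb] at hB3
            exact mul_le_mul hB3 hB3 (Nat.cast_nonneg _) (mul_nonneg (pow_nonneg hK0.le 131) hb00)
        _ = _ := (sq _).symm
    unfold Sm
    rw [← hb]
    obtain ⟨y, hy⟩ : ∃ y : ℝ, y = ((B - dil (h'⁻¹ * h) B).card : ℝ) := ⟨_, rfl⟩
    rw [← hy] at hT4 ⊢
    have hy0 : 0 ≤ y := by rw [hy]; exact Nat.cast_nonneg _
    rcases hb00.eq_or_lt with hb1 | hb1
    · -- `B` is empty
      have h3 : B = ∅ := by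
        rw [hb] at hb1
        exact card_eq_zero.1 (by exact_mod_cast hb1.symm)
      have h4 : y = 0 := by
        rw [hy, h3]
        simp
      rw [h4, ← hb1, mul_zero]
    · have h350 : K ^ 350 = K ^ 88 * (K ^ 131 * K ^ 131) := by
        rw [← pow_add, ← pow_add]
      obtain ⟨u, hu⟩ : ∃ u : ℝ, u = K ^ 88 := ⟨_, rfl⟩
      obtain ⟨v, hv⟩ : ∃ v : ℝ, v = K ^ 131 := ⟨_, rfl⟩
      have hu0 : 0 ≤ u := by rw [hu]; positivity
      rw [h350, ← hu, ← hv]
      rw [← hu] at hS2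
      rw [← hv] at hT4
      have h3 : y * b ≤ (u * (v * v) * b) * b := by
        calc y * b ≤ y * (u * σ) := mul_le_mul_of_nonneg_left hS2 hy0
          _ = u * (y * σ) := by ring
          _ ≤ u * (v * b) ^ 2 := mul_le_mul_of_nonneg_left hT4 hu0
          _ = _ := by ring
      exact le_of_mul_le_mul_right h3 hb1

/-- the core of the flattening lemma -/
theorem flat_core (hp : 10 ≤ p) {ν : ZMod p → ℝ} (hν : ∀ x, 0 ≤ ν x) (h1 : ∑ x, ν x = 1) {N K : ℝ} (hN : 0 < N)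
    (h2 : ∑ x, ν x ^ 2 = 1 / N) (hK : 2 ^ 31 ≤ K) (hcon : 1 / (K ^ 2 * N) ≤ ∑ x, cv ν ν x ^ 2)
    (H : Finset (ZMod p)) (hH0 : ∀ h ∈ H, h ≠ 0) (hHne : H.Nonempty)
    (hinv : ∀ h ∈ H, K ^ 21 * ∑ x, |ν (h * x) - ν x| ≤ 1) (t : ℕ) (x : ℝ) (hx : 4 ≤ x)
    (hxH : K ^ 43 * x ≤ H.card) (hbig : 2 * (K ^ 350) ^ (33 ^ t) * K ^ 17 ≤ N) :
    min (x ^ ((3 / 2 : ℝ) ^ t)) (((p : ℝ) - 1) / 2) ≤ 2 * (K ^ 350) ^ (33 ^ t) * (K ^ 3 * N) := by
  have hK1 : 1 ≤ K := le_trans (by norm_num) hK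
  have hK0 : 0 < K := by linarith
  obtain ⟨B, hBne, hB1, hB2, hB3, hB4⟩ := heavy hν h1 hN h2 hK hcon
  obtain ⟨D, hD1, hD2⟩ := ratios hν h1 hN h2 hK hB2 hB3 hB4 H hH0 hHne hinv
  have hxD : x ≤ D.card := by
    have h3 : K ^ 43 * x ≤ K ^ 43 * D.card := hxH.trans hD1
    exact le_of_mul_le_mul_left h3 (by positivity)
  obtain ⟨X, hX1, hX2⟩ := iter hBne hB3 (one_le_pow₀ hK1) (C := K ^ 350) (pow_le_pow_right₀ hK1 (by norm_num)) hp x hx D hxD
    hD2 t
  have hC1 : 1 ≤ (K ^ 350) ^ (33 ^ t) := one_le_pow₀ (one_le_pow₀ hK1)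
  have hBC : 2 * (K ^ 350) ^ (33 ^ t) ≤ B.card := by
    have h3 : (2 * (K ^ 350) ^ (33 ^ t)) * K ^ 17 ≤ B.card * K ^ 17 := by
      refine hbig.trans (hB1.trans (le_of_eq ?_))
      ring
    exact le_of_mul_le_mul_right h3 (by positivity)
  have h4 := few hC1 hBC X hX1
  refine hX2.trans (h4.trans ?_)
  exact mul_le_mul_of_nonneg_left hB2 (by positivity)

end Pool.Agent.J4.H80.BGK
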