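import Pool.Agent.J4.H80.BGK.Core

set_option autoImplicit false

/-! The flattening lemma with powers of `p`. -/

namespace Pool.Agent.J4.H80.BGK

open Finset Filter

/-- powers of `p` with a positive exponent are large -/
lemma ev_pow (c A : ℝ) (hc : 0 < c) : ∃ P : ℕ, ∀ p : ℕ, P ≤ p → A ≤ (p : ℝ) ^ c := by
  have h1 : Tendsto (fun p : ℕ => (p : ℝ) ^ c) atTop atTop :=
    (tendsto_rpow_atTop hc).comp tendsto_natCast_atTop_atTop
  exact eventually_atTop.1 (h1.eventually_ge_atTop A)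

theorem flatten (ε η : ℝ) (hε : 0 < ε) (hη : 0 < η) : ∃ κ : ℝ, 0 < κ ∧ ∃ P₀ : ℕ, ∀ p : ℕ, P₀ ≤ p →
    ∀ [Fact p.Prime] (ν : ZMod p → ℝ), (∀ x, 0 ≤ ν x) → ∑ x, ν x = 1 → (p : ℝ) ^ (-1 + η) ≤ ∑ x, ν x ^ 2 →
    ∑ x, ν x ^ 2 ≤ (p : ℝ) ^ (-ε) → ∀ H : Finset (ZMod p), (∀ h ∈ H, h ≠ 0) → (p : ℝ) ^ ε ≤ H.card →
    (∀ h ∈ H, ∑ x, |ν (h * x) - ν x| ≤ (p : ℝ) ^ (-(ε / 2))) →
    ∑ x, cv ν ν x ^ 2 ≤ (p : ℝ) ^ (-κ) * ∑ x, ν x ^ 2 := by
  obtain ⟨t, ht⟩ : ∃ t : ℕ, 1 ≤ ε / 2 * (3 / 2 : ℝ) ^ t := by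
    obtain ⟨t, ht⟩ := pow_unbounded_of_one_lt (2 / ε) (show (1 : ℝ) < 3 / 2 by norm_num)
    refine ⟨t, ?_⟩
    have h1 : ε / 2 * (2 / ε) ≤ ε / 2 * (3 / 2 : ℝ) ^ t := mul_le_mul_of_nonneg_left ht.le (by positivity)
    have h2 : ε / 2 * (2 / ε) = 1 := by field_simp
    linarith
  obtain ⟨a, ha⟩ : ∃ a : ℝ, a = 350 * 33 ^ t + 60 := ⟨_, rfl⟩
  have ha60 : 60 ≤ a := by
    rw [ha]
    have : (0 : ℝ) ≤ 350 * 33 ^ t := by positivity
    linarith
  obtain ⟨k, hk⟩ : ∃ k : ℝ, k = min ε η / (4 * a) := ⟨_, rfl⟩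
  have hm : 0 < min ε η := lt_min hε hη
  have hk0 : 0 < k := by rw [hk]; positivity
  have hak : a * k = min ε η / 4 := by
    rw [hk]
    field_simp
  have hakε : a * k ≤ ε / 4 := by rw [hak]; linarith [min_le_left ε η]
  have hakη : a * k ≤ η / 4 := by rw [hak]; linarith [min_le_right ε η]
  obtain ⟨P1, h1⟩ := ev_pow k (2 ^ 31) hk0
  obtain ⟨P2, h2⟩ := ev_pow (ε / 2) 4 (by positivity)
  obtain ⟨P3, h3⟩ := ev_pow (3 * η / 4) 9 (by positivity)
  refine ⟨2 * k, by positivity, P1 + P2 + P3 + 10, ?_⟩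
  intro p hp _ ν hν hν1 hlow hup H hH0 hH hinv
  by_contra hcon
  push Not at hcon
  have hp0 : (0 : ℝ) < p := by exact_mod_cast (by omega : 0 < p)
  have hp1 : (1 : ℝ) ≤ p := by exact_mod_cast (by omega : 1 ≤ p)
  have hp10 : (10 : ℝ) ≤ p := by exact_mod_cast (by omega : 10 ≤ p)
  have g1 := h1 p (by omega)
  have g2 := h2 p (by omega)
  have g3 := h3 p (by omega)
  obtain ⟨K, hK⟩ : ∃ K : ℝ, K = (p : ℝ) ^ k := ⟨_, rfl⟩
  rw [← hK] at g1
  have hK1 : 1 ≤ K := le_trans (by norm_num) g1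
  have hK0 : 0 < K := by linarith
  have hKpow : ∀ n : ℕ, K ^ n = (p : ℝ) ^ (k * n) := by
    intro n
    rw [hK, ← Real.rpow_natCast, ← Real.rpow_mul hp0.le]
  obtain ⟨N, hN⟩ : ∃ N : ℝ, N = 1 / ∑ x, ν x ^ 2 := ⟨_, rfl⟩
  have hs0 : 0 < ∑ x, ν x ^ 2 := lt_of_lt_of_le (by positivity) hlow
  have hN0 : 0 < N := by rw [hN]; positivity
  have hsN : ∑ x, ν x ^ 2 = 1 / N := by rw [hN, one_div_one_div]
  have hNup : N ≤ (p : ℝ) ^ (1 - η) := by
    rw [hN]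
    have e1 : (p : ℝ) ^ (1 - η) = 1 / (p : ℝ) ^ (-1 + η) := by
      rw [one_div, ← Real.rpow_neg hp0.le]
      congr 1
      ring
    rw [e1]
    exact one_div_le_one_div_of_le (by positivity) hlow
  have hNlow : (p : ℝ) ^ ε ≤ N := by
    rw [hN]
    have e1 : (p : ℝ) ^ ε = 1 / (p : ℝ) ^ (-ε) := by
      rw [one_div, ← Real.rpow_neg hp0.le, neg_neg]
    rw [e1]
    exact one_div_le_one_div_of_le hs0 hup
  have h21 : k * 21 ≤ ε / 2 := by nlinarith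
  have h43 : k * 43 ≤ ε / 2 := by nlinarith
  have key := flat_core (p := p) (by omega) hν hν1 hN0 hsN g1 (by
      rw [hsN] at hcon
      refine le_trans (le_of_eq ?_) hcon.le
      rw [hKpow 2, show -(2 * k) = -(k * (2 : ℕ)) by push_cast; ring, Real.rpow_neg hp0.le]
      field_simp) H hH0 (by
      rw [← card_pos]
      have : (0 : ℝ) < H.card := lt_of_lt_of_le (by positivity) hH
      exact_mod_cast this) (by
      intro h hh
      calc K ^ 21 * ∑ x, |ν (h * x) - ν x| ≤ K ^ 21 * (p : ℝ) ^ (-(ε / 2)) :=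
            mul_le_mul_of_nonneg_left (hinv h hh) (by positivity)
        _ = (p : ℝ) ^ (k * (21 : ℕ) + -(ε / 2)) := by rw [hKpow 21, ← Real.rpow_add hp0]
        _ ≤ (p : ℝ) ^ (0 : ℝ) := by
            apply Real.rpow_le_rpow_of_exponent_le hp1
            push_cast
            linarith
        _ = 1 := Real.rpow_zero _) t ((p : ℝ) ^ (ε / 2)) g2 (by
      refine le_trans ?_ hH
      rw [hKpow 43, ← Real.rpow_add hp0]
      apply Real.rpow_le_rpow_of_exponent_le hp1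
      push_cast
      linarith) (by
      refine le_trans ?_ hNlow
      rw [← pow_mul, mul_assoc, ← pow_add]
      have e1 : K ^ (350 * 33 ^ t + 17) ≤ (p : ℝ) ^ (ε / 4) := by
        rw [hKpow]
        apply Real.rpow_le_rpow_of_exponent_le hp1
        push_cast
        have : k * (350 * 33 ^ t + 17) ≤ a * k := by
          rw [mul_comm a k]
          apply mul_le_mul_of_nonneg_left _ hk0.le
          rw [ha]
          linarith
        linarith
      calc 2 * K ^ (350 * 33 ^ t + 17) ≤ (p : ℝ) ^ (ε / 2) * (p : ℝ) ^ (ε / 4) := by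
            apply mul_le_mul (by linarith) e1 (by positivity) (by positivity)
        _ = (p : ℝ) ^ (ε / 2 + ε / 4) := by rw [← Real.rpow_add hp0]
        _ ≤ _ := by
            apply Real.rpow_le_rpow_of_exponent_le hp1
            linarith)
  have e1 : (p : ℝ) ≤ ((p : ℝ) ^ (ε / 2)) ^ ((3 / 2 : ℝ) ^ t) := by
    rw [← Real.rpow_mul hp0.le]
    calc (p : ℝ) = (p : ℝ) ^ (1 : ℝ) := (Real.rpow_one _).symm
      _ ≤ _ := Real.rpow_le_rpow_of_exponent_le hp1 ht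
  rw [min_eq_right (by linarith)] at key
  have e2 : 2 * (K ^ 350) ^ (33 ^ t) * (K ^ 3 * N) ≤ 2 * (p : ℝ) ^ (1 - 3 * η / 4) := by
    have e3 : 2 * (K ^ 350) ^ (33 ^ t) * (K ^ 3 * N) = 2 * (K ^ (350 * 33 ^ t + 3) * N) := by
      rw [← pow_mul, pow_add]
      ring
    rw [e3]
    apply mul_le_mul_of_nonneg_left _ (by norm_num)
    have e4 : K ^ (350 * 33 ^ t + 3) ≤ (p : ℝ) ^ (η / 4) := by
      rw [hKpow]
      apply Real.rpow_le_rpow_of_exponent_le hp1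
      push_cast
      have : k * (350 * 33 ^ t + 3) ≤ a * k := by
        rw [mul_comm a k]
        apply mul_le_mul_of_nonneg_left _ hk0.le
        rw [ha]
        linarith
      linarith
    calc K ^ (350 * 33 ^ t + 3) * N ≤ (p : ℝ) ^ (η / 4) * (p : ℝ) ^ (1 - η) :=
          mul_le_mul e4 hNup hN0.le (by positivity)
      _ = (p : ℝ) ^ (1 - 3 * η / 4) := by
          rw [← Real.rpow_add hp0]
          congr 1
          ring
  have e5 : (p : ℝ) = (p : ℝ) ^ (1 - 3 * η / 4) * (p : ℝ) ^ (3 * η / 4) := by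
    rw [← Real.rpow_add hp0]
    have : 1 - 3 * η / 4 + 3 * η / 4 = 1 := by ring
    rw [this, Real.rpow_one]
  have e6 : 0 < (p : ℝ) ^ (1 - 3 * η / 4) := by positivity
  have e7 : 9 * (p : ℝ) ^ (1 - 3 * η / 4) ≤ p := by
    calc 9 * (p : ℝ) ^ (1 - 3 * η / 4) ≤ (p : ℝ) ^ (3 * η / 4) * (p : ℝ) ^ (1 - 3 * η / 4) :=
          mul_le_mul_of_nonneg_right g3 e6.le
      _ = p := by rw [mul_comm]; exact e5.symm
  linarith

end Pool.Agent.J4.H80.BGK
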