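import Pool.Agent.J4.H80.BGK.Flat

set_option autoImplicit false

/-! # Exponential sums over measures which are almost invariant under many multiplications

The theorem of Bourgain, Glibichuk and Konyagin, in a general form. -/

namespace Pool.Agent.J4.H80.BGK

open Finset Filter

variable {p : ℕ} [Fact p.Prime]

/-- the additive character `e(x / p)` -/
noncomputable abbrev ch (x : ZMod p) : ℂ := ZMod.stdAddChar (N := p) x

/-- the Fourier coefficient -/
noncomputable def ft (f : ZMod p → ℝ) (a : ZMod p) : ℂ := ∑ x, (f x : ℂ) * ch (a * x)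

lemma norm_ch (x : ZMod p) : ‖ch x‖ = 1 := AddChar.norm_apply _ _

lemma ft_cv (f g : ZMod p → ℝ) (a : ZMod p) : ft (cv f g) a = ft f a * ft g a := by
  unfold ft cv
  rw [sum_mul_sum]
  have h1 : ∀ x : ZMod p, ((∑ y, f y * g (x - y) : ℝ) : ℂ) * ch (a * x) =
      ∑ y, ((f y : ℂ) * ch (a * y)) * ((g (x - y) : ℂ) * ch (a * (x - y))) := by
    intro x
    push_cast
    rw [sum_mul]
    refine sum_congr rfl fun y _ => ?_
    have h2 : ch (a * x) = ch (a * y) * ch (a * (x - y)) := by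
      unfold ch
      rw [← AddChar.map_add_eq_mul]
      congr 1
      ring
    rw [h2]
    ring
  simp only [h1]
  rw [sum_comm]
  refine sum_congr rfl fun y _ => ?_
  rw [← mul_sum, ← mul_sum]
  congr 1
  exact Fintype.sum_equiv (Equiv.subRight y) _ _ fun _ => rfl

/-- Parseval's identity -/
lemma parseval (r : ZMod p → ℝ) : ∑ b : ZMod p, ‖ft r b‖ ^ 2 = p * ∑ u, r u ^ 2 := by
  classical
  unfold ft ch
  have h1 : ∀ b ∈ (univ : Finset (ZMod p)),
      ((‖∑ u : ZMod p, (r u : ℂ) * ZMod.stdAddChar (N := p) (b * u)‖ ^ 2 : ℝ) : ℂ) =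
      ∑ u : ZMod p, ∑ u' : ZMod p, ((r u : ℂ) * r u') * ZMod.stdAddChar (N := p) (b * (u - u')) := by
    intro b _
    push_cast
    rw [← Complex.mul_conj', map_sum, sum_mul_sum]
    refine sum_congr rfl fun u _ => sum_congr rfl fun u' _ => ?_
    rw [map_mul (starRingEnd ℂ), Complex.conj_ofReal, ← AddChar.map_neg_eq_conj, mul_sub, sub_eq_add_neg,
      AddChar.map_add_eq_mul]
    ring
  have h2 : ((∑ b : ZMod p, ‖∑ u : ZMod p, (r u : ℂ) * ZMod.stdAddChar (N := p) (b * u)‖ ^ 2 : ℝ) : ℂ) =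
      ((p * ∑ u, r u ^ 2 : ℝ) : ℂ) := by
    rw [Complex.ofReal_sum, sum_congr rfl h1, sum_comm]
    have h3 : ∀ u ∈ (univ : Finset (ZMod p)), ∑ b : ZMod p, ∑ u' : ZMod p,
        ((r u : ℂ) * r u') * ZMod.stdAddChar (N := p) (b * (u - u')) = p * (r u : ℂ) ^ 2 := by
      intro u _
      rw [sum_comm]
      have h4 : ∀ u' ∈ (univ : Finset (ZMod p)), ∑ b : ZMod p,
          ((r u : ℂ) * r u') * ZMod.stdAddChar (N := p) (b * (u - u')) = if u = u' then p * (r u : ℂ) ^ 2 else 0 := by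
        intro u' _
        rw [← mul_sum, AddChar.sum_mulShift _ (ZMod.isPrimitive_stdAddChar p), ZMod.card]
        by_cases h : u = u'
        · subst h
          rw [sub_self, if_pos rfl, if_pos rfl]
          ring
        · rw [if_neg h, if_neg (sub_ne_zero.2 h)]
          simp
      rw [sum_congr rfl h4, sum_ite_eq, if_pos (mem_univ _)]
    rw [sum_congr rfl h3, ← mul_sum]
    push_cast
    rfl
  exact_mod_cast h2

lemma norm_ft_le {f : ZMod p → ℝ} (hf : ∀ x, 0 ≤ f x) (a : ZMod p) : ‖ft f a‖ ≤ ∑ x, f x := by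
  unfold ft
  refine (norm_sum_le _ _).trans (sum_le_sum fun x _ => ?_)
  rw [norm_mul, norm_ch, mul_one, Complex.norm_real, Real.norm_of_nonneg (hf x)]

/-- dilation changes the Fourier coefficient little -/
lemma ft_dil (f : ZMod p → ℝ) {h : ZMod p} (hh : h ≠ 0) (a : ZMod p) :
    ‖ft f (a * h) - ft f a‖ ≤ ∑ x, |f (h * x) - f x| := by
  have e1 : ft f a = ∑ x, (f (h * x) : ℂ) * ch (a * h * x) := by
    unfold ft
    refine (Fintype.sum_equiv (Equiv.mulLeft₀ h hh) _ _ fun x => ?_).symm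
    rw [Equiv.mulLeft₀_apply, mul_assoc]
  rw [e1]
  unfold ft
  rw [← sum_sub_distrib]
  refine (norm_sum_le _ _).trans (sum_le_sum fun x _ => ?_)
  rw [← sub_mul, norm_mul, norm_ch, mul_one, ← Complex.ofReal_sub, Complex.norm_real, Real.norm_eq_abs, abs_sub_comm]

/-- the iterated convolution squares -/
noncomputable def it (μ : ZMod p → ℝ) : ℕ → ZMod p → ℝ
  | 0 => μ
  | m + 1 => cv (it μ m) (it μ m)

lemma it_nonneg {μ : ZMod p → ℝ} (h : ∀ x, 0 ≤ μ x) (m : ℕ) : ∀ x, 0 ≤ it μ m x := by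
  induction m with
  | zero => exact h
  | succ m ih => exact fun x => cv_nonneg ih ih x

lemma it_sum {μ : ZMod p → ℝ} (h : ∑ x, μ x = 1) (m : ℕ) : ∑ x, it μ m x = 1 := by
  induction m with
  | zero => exact h
  | succ m ih =>
    show ∑ x, cv (it μ m) (it μ m) x = 1
    rw [sum_cv, ih, mul_one]

lemma it_sq {μ : ZMod p → ℝ} (h : ∀ x, 0 ≤ μ x) (h1 : ∑ x, μ x = 1) (m : ℕ) :
    ∑ x, it μ m x ^ 2 ≤ ∑ x, μ x ^ 2 := by
  induction m with
  | zero => exact le_rfl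
  | succ m ih =>
    refine le_trans ?_ ih
    refine (young (it_nonneg h m) (it μ m)).trans (le_of_eq ?_)
    rw [it_sum h1, one_pow, one_mul]

lemma it_ft (μ : ZMod p → ℝ) (m : ℕ) (a : ZMod p) : ft (it μ m) a = ft μ a ^ (2 ^ m) := by
  induction m with
  | zero => rw [pow_zero, pow_one]; rfl
  | succ m ih =>
    show ft (cv (it μ m) (it μ m)) a = _
    rw [ft_cv, ih, ← pow_add]
    congr 1
    ring

lemma cv_inv {f : ZMod p → ℝ} (hf : ∀ x, 0 ≤ f x) (h1 : ∑ x, f x = 1) {h : ZMod p} (hh : h ≠ 0) :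
    ∑ x, |cv f f (h * x) - cv f f x| ≤ 2 * ∑ x, |f (h * x) - f x| := by
  obtain ⟨g, hg⟩ : ∃ g : ZMod p → ℝ, g = fun x => f (h * x) := ⟨_, rfl⟩
  have hg1 : ∑ x, g x = 1 := by
    rw [← h1, hg]
    exact Fintype.sum_equiv (Equiv.mulLeft₀ h hh) _ _ fun x => rfl
  have hg0 : ∀ x, 0 ≤ g x := fun x => by rw [hg]; exact hf _
  have e1 : ∀ x, cv f f (h * x) = cv g g x := by
    intro x
    unfold cv
    refine (Fintype.sum_equiv (Equiv.mulLeft₀ h hh) _ _ fun y => ?_).symm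
    rw [Equiv.mulLeft₀_apply, hg]
    dsimp only
    rw [mul_sub]
  obtain ⟨d, hd⟩ : ∃ d : ZMod p → ℝ, d = fun x => |g x - f x| := ⟨_, rfl⟩
  have e2 : ∀ x, |cv f f (h * x) - cv f f x| ≤ cv d g x + cv f d x := by
    intro x
    rw [e1 x]
    unfold cv
    rw [← sum_sub_distrib, ← sum_add_distrib]
    refine (abs_sum_le_sum_abs _ _).trans (sum_le_sum fun y _ => ?_)
    rw [hd]
    dsimp only
    have e3 : g y * g (x - y) - f y * f (x - y) = (g y - f y) * g (x - y) + f y * (g (x - y) - f (x - y)) := by ring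
    rw [e3]
    refine (abs_add_le _ _).trans ?_
    rw [abs_mul, abs_mul, abs_of_nonneg (hg0 (x - y)), abs_of_nonneg (hf y)]
  calc ∑ x, |cv f f (h * x) - cv f f x| ≤ ∑ x, (cv d g x + cv f d x) := sum_le_sum fun x _ => e2 x
    _ = (∑ x, d x) * 1 + 1 * ∑ x, d x := by
        rw [sum_add_distrib, sum_cv, sum_cv, hg1, h1]
    _ = 2 * ∑ x, |f (h * x) - f x| := by
        rw [hd, hg]
        ring

lemma it_inv {μ : ZMod p → ℝ} (hμ : ∀ x, 0 ≤ μ x) (h1 : ∑ x, μ x = 1) {h : ZMod p} (hh : h ≠ 0) (m : ℕ) :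
    ∑ x, |it μ m (h * x) - it μ m x| ≤ 2 ^ m * ∑ x, |μ (h * x) - μ x| := by
  induction m with
  | zero => rw [pow_zero, one_mul]; rfl
  | succ m ih =>
    refine (cv_inv (it_nonneg hμ m) (it_sum h1 m) hh).trans ?_
    calc 2 * ∑ x, |it μ m (h * x) - it μ m x| ≤ 2 * (2 ^ m * ∑ x, |μ (h * x) - μ x|) :=
          mul_le_mul_of_nonneg_left ih (by norm_num)
      _ = _ := by rw [pow_succ]; ring

/-- **The theorem of Bourgain, Glibichuk and Konyagin**, for probability measures which are almost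
invariant under the multiplications by the elements of a set of at least `p ^ ε` elements. -/
theorem bgk (ε : ℝ) (hε : 0 < ε) : ∃ δ : ℝ, 0 < δ ∧ ∃ P₀ : ℕ, ∀ p : ℕ, P₀ ≤ p → ∀ [Fact p.Prime]
    (μ : ZMod p → ℝ), (∀ x, 0 ≤ μ x) → ∑ x, μ x = 1 → ∑ x, μ x ^ 2 ≤ (p : ℝ) ^ (-ε) →
    ∀ H : Finset (ZMod p), (∀ h ∈ H, h ≠ 0) → (p : ℝ) ^ ε ≤ H.card →
    (∀ h ∈ H, ∑ x, |μ (h * x) - μ x| ≤ (p : ℝ) ^ (-ε)) →
    ∀ a : ZMod p, a ≠ 0 → ‖ft μ a‖ ≤ (p : ℝ) ^ (-δ) := by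
  obtain ⟨κ, hκ, P1, hflat⟩ := flatten ε (ε / 2) hε (by positivity)
  obtain ⟨M, hM⟩ := exists_nat_gt (1 / κ)
  have hMκ : 1 < κ * M := by
    rw [div_lt_iff₀ hκ] at hM
    linarith
  obtain ⟨Q, hQ⟩ : ∃ Q : ℕ, Q = 2 ^ (M + 1) := ⟨_, rfl⟩
  have hQ0 : 0 < Q := by rw [hQ]; positivity
  have hQr : (0 : ℝ) < Q := by exact_mod_cast hQ0
  obtain ⟨δ, hδ⟩ : ∃ δ : ℝ, δ = ε / (8 * Q) := ⟨_, rfl⟩
  have hδ0 : 0 < δ := by rw [hδ]; positivity
  have hδQ : δ * Q = ε / 8 := by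
    rw [hδ]
    field_simp
  have hδε : δ ≤ ε / 8 := by
    have h1 : (1 : ℝ) ≤ Q := by exact_mod_cast hQ0
    nlinarith
  obtain ⟨P2, h2⟩ := ev_pow (ε / 2) (2 ^ M) (by positivity)
  obtain ⟨P3, h3⟩ := ev_pow (ε / 8) (2 ^ Q) (by positivity)
  obtain ⟨P4, h4⟩ := ev_pow (ε / 8) 2 (by positivity)
  refine ⟨δ, hδ0, P1 + P2 + P3 + P4 + 2, ?_⟩
  intro p hp _ μ hμ hμ1 hμ2 H hH0 hH hinv a ha
  have hp1' : 1 < p := by omega
  have hp1 : (1 : ℝ) < p := by exact_mod_cast hp1'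
  have hp0 : (0 : ℝ) < p := by linarith
  have g2 := h2 p (by omega)
  have g3 := h3 p (by omega)
  have g4 := h4 p (by omega)
  by_contra hcon
  push Not at hcon
  -- some iterated convolution is flat
  have hex : ∃ m, m ≤ M ∧ ∑ x, it μ m x ^ 2 < (p : ℝ) ^ (-1 + ε / 2) := by
    by_contra hno
    push Not at hno
    have hind : ∀ m, m ≤ M → ∑ x, it μ m x ^ 2 ≤ (p : ℝ) ^ (-(κ * m)) := by
      intro m
      induction m with
      | zero =>
        intro _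
        rw [Nat.cast_zero, mul_zero, neg_zero, Real.rpow_zero]
        refine hμ2.trans ?_
        calc (p : ℝ) ^ (-ε) ≤ (p : ℝ) ^ (0 : ℝ) := Real.rpow_le_rpow_of_exponent_le hp1.le (by linarith)
          _ = 1 := Real.rpow_zero _
      | succ m ih =>
        intro hm
        have h5 := hflat p (by omega) (it μ m) (it_nonneg hμ m) (it_sum hμ1 m) (hno m (by omega))
          ((it_sq hμ hμ1 m).trans hμ2) H hH0 hH (by
          intro h hh
          refine (it_inv hμ hμ1 (hH0 h hh) m).trans ?_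
          calc (2 : ℝ) ^ m * ∑ x, |μ (h * x) - μ x| ≤ 2 ^ M * (p : ℝ) ^ (-ε) := by
                apply mul_le_mul (pow_le_pow_right₀ (by norm_num) (by omega)) (hinv h hh)
                  (sum_nonneg fun x _ => abs_nonneg _) (by positivity)
            _ ≤ (p : ℝ) ^ (ε / 2) * (p : ℝ) ^ (-ε) := mul_le_mul_of_nonneg_right g2 (by positivity)
            _ = (p : ℝ) ^ (-(ε / 2)) := by
                rw [← Real.rpow_add hp0]
                congr 1
                ring)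
        calc ∑ x, it μ (m + 1) x ^ 2 ≤ (p : ℝ) ^ (-κ) * ∑ x, it μ m x ^ 2 := h5
          _ ≤ (p : ℝ) ^ (-κ) * (p : ℝ) ^ (-(κ * m)) :=
              mul_le_mul_of_nonneg_left (ih (by omega)) (by positivity)
          _ = _ := by
              rw [← Real.rpow_add hp0]
              congr 1
              push_cast
              ring
    have h6 := hind M le_rfl
    have h7 := hno M le_rfl
    have h8 : (p : ℝ) ^ (-(κ * M)) < (p : ℝ) ^ (-1 + ε / 2) := by
      apply Real.rpow_lt_rpow_of_exponent_lt hp1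
      linarith
    linarith
  obtain ⟨m, hmM, hm⟩ := hex
  -- the large coefficients
  have hbig : ∀ h ∈ H, (p : ℝ) ^ (-δ) / 2 ≤ ‖ft μ (a * h)‖ := by
    intro h hh
    have h5 := (ft_dil μ (hH0 h hh) a).trans (hinv h hh)
    have h6 : ‖ft μ a‖ ≤ ‖ft μ (a * h)‖ + ‖ft μ (a * h) - ft μ a‖ := by
      have := norm_sub_le (ft μ (a * h)) (ft μ (a * h) - ft μ a)
      rwa [sub_sub_cancel] at this
    have h7 : (p : ℝ) ^ (-ε) ≤ (p : ℝ) ^ (-δ) / 2 := by
      rw [le_div_iff₀ (by norm_num : (0 : ℝ) < 2)]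
      calc (p : ℝ) ^ (-ε) * 2 ≤ (p : ℝ) ^ (-ε) * (p : ℝ) ^ (ε / 8) :=
            mul_le_mul_of_nonneg_left g4 (by positivity)
        _ = (p : ℝ) ^ (-ε + ε / 8) := by rw [← Real.rpow_add hp0]
        _ ≤ _ := Real.rpow_le_rpow_of_exponent_le hp1.le (by linarith)
    linarith
  obtain ⟨c, hc⟩ : ∃ c : ℝ, c = (p : ℝ) ^ (-δ) / 2 := ⟨_, rfl⟩
  have hc0 : 0 < c := by rw [hc]; positivity
  have hc1 : c ≤ 1 := by
    rw [hc]
    have : (p : ℝ) ^ (-δ) ≤ 1 := by
      calc (p : ℝ) ^ (-δ) ≤ (p : ℝ) ^ (0 : ℝ) := Real.rpow_le_rpow_of_exponent_le hp1.le (by linarith)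
        _ = 1 := Real.rpow_zero _
    linarith
  have hsum : (H.card : ℝ) * c ^ Q ≤ p * ∑ x, it μ m x ^ 2 := by
    rw [← parseval]
    have h5 : ∀ h ∈ H, c ^ Q ≤ ‖ft (it μ m) (a * h)‖ ^ 2 := by
      intro h hh
      rw [it_ft, norm_pow, ← pow_mul]
      have h6 := hbig h hh
      rw [← hc] at h6
      calc c ^ Q ≤ c ^ (2 ^ m * 2) := by
            apply pow_le_pow_of_le_one hc0.le hc1
            rw [hQ, ← pow_succ]
            exact Nat.pow_le_pow_right (by norm_num) (by omega)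
        _ ≤ _ := pow_le_pow_left₀ hc0.le h6 _
    calc (H.card : ℝ) * c ^ Q = ∑ h ∈ H, c ^ Q := by rw [sum_const, nsmul_eq_mul]
      _ ≤ ∑ h ∈ H, ‖ft (it μ m) (a * h)‖ ^ 2 := sum_le_sum h5
      _ = ∑ b ∈ H.image (fun h => a * h), ‖ft (it μ m) b‖ ^ 2 := by
          rw [sum_image]
          intro x _ y _ hxy
          exact mul_right_injective₀ ha hxy
      _ ≤ _ := sum_le_sum_of_subset_of_nonneg (subset_univ _) fun x _ _ => sq_nonneg _
  have hcQ : (p : ℝ) ^ (-(ε / 4)) ≤ c ^ Q := by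
    rw [hc, div_pow, ← Real.rpow_natCast, ← Real.rpow_mul hp0.le, le_div_iff₀ (by positivity)]
    calc (p : ℝ) ^ (-(ε / 4)) * 2 ^ Q ≤ (p : ℝ) ^ (-(ε / 4)) * (p : ℝ) ^ (ε / 8) :=
          mul_le_mul_of_nonneg_left g3 (by positivity)
      _ = (p : ℝ) ^ (-δ * Q) := by
          rw [← Real.rpow_add hp0]
          congr 1
          linarith
  have hfin : (p : ℝ) ^ ε * (p : ℝ) ^ (-(ε / 4)) < (p : ℝ) ^ (ε / 2) := by
    calc (p : ℝ) ^ ε * (p : ℝ) ^ (-(ε / 4)) ≤ H.card * c ^ Q :=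
          mul_le_mul hH hcQ (by positivity) (Nat.cast_nonneg _)
      _ ≤ _ := hsum
      _ < p * (p : ℝ) ^ (-1 + ε / 2) := mul_lt_mul_of_pos_left hm hp0
      _ = (p : ℝ) ^ (ε / 2) := by
          have : (p : ℝ) * (p : ℝ) ^ (-1 + ε / 2) = (p : ℝ) ^ (1 : ℝ) * (p : ℝ) ^ (-1 + ε / 2) := by
            rw [Real.rpow_one]
          rw [this, ← Real.rpow_add hp0]
          congr 1
          ring
  rw [← Real.rpow_add hp0] at hfin
  have h9 : (p : ℝ) ^ (ε / 2) ≤ (p : ℝ) ^ (ε + -(ε / 4)) :=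
    Real.rpow_le_rpow_of_exponent_le hp1.le (by linarith)
  linarith

end Pool.Agent.J4.H80.BGK
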