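import Pool.Agent.J4.H80.BGK.Four

set_option autoImplicit false

/-!
# Exponential sums over short geometric progressions modulo primes

`geo`: `|∑_{j < T} e(a θ ^ j / p)| ≤ T p ^ (-δ)` for all `T ≥ p ^ ε`, all `θ` of order at least `p ^ ε` and all `a ≠ 0`
(Bourgain, Glibichuk and Konyagin for complete and Bourgain for incomplete sums).
-/

namespace Pool.Agent.J4.H80.BGK

open Finset

section count

set_option linter.unusedSectionVars false

variable {R : Type} [CommRing R] [Fintype R] [DecidableEq R]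

/-- the number of the indices `j < T` with `y j = x` -/
noncomputable def cnt (y : ℕ → R) (T : ℕ) (x : R) : ℝ := (((range T).filter fun j => y j = x).card : ℝ)

lemma cnt_nonneg (y : ℕ → R) (T : ℕ) (x : R) : 0 ≤ cnt y T x := Nat.cast_nonneg _

lemma cnt_eq (y : ℕ → R) (T : ℕ) (x : R) : cnt y T x = ∑ j ∈ range T, if y j = x then (1 : ℝ) else 0 := by
  unfold cnt
  rw [card_filter]
  push_cast
  rfl

lemma cnt_sum (y : ℕ → R) (T : ℕ) : ∑ x, cnt y T x = T := by
  simp only [cnt_eq]
  rw [sum_comm]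
  simp

lemma cnt_sum_mul (y : ℕ → R) (T : ℕ) (F : R → ℂ) :
    ∑ x, (cnt y T x : ℂ) * F x = ∑ j ∈ range T, F (y j) := by
  have h1 : ∀ x, (cnt y T x : ℂ) * F x = ∑ j ∈ range T, if y j = x then F x else 0 := by
    intro x
    rw [cnt_eq, Complex.ofReal_sum, sum_mul]
    refine sum_congr rfl fun j _ => ?_
    split_ifs <;> simp
  rw [sum_congr rfl fun x _ => h1 x, sum_comm]
  refine sum_congr rfl fun j _ => ?_
  simp

lemma cnt_shift (y : ℕ → R) (T : ℕ) (h : R) (i : ℕ) (hy : ∀ j, y (j + i) = h * y j)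
    (hinj : ∀ u v : R, h * u = h * v → u = v) :
    ∑ x, |cnt y T (h * x) - cnt y T x| ≤ 2 * i := by
  classical
  have key : ∀ x, |cnt y T (h * x) - cnt y T x| ≤
      (∑ j ∈ range i, if y j = h * x then (1 : ℝ) else 0) +
        ∑ j ∈ Ico (T - i) T, if y j = x then (1 : ℝ) else 0 := by
    intro x
    rcases le_total i T with hiT | hiT
    · have e1 : cnt y T (h * x) = (∑ j ∈ range i, if y j = h * x then (1 : ℝ) else 0) +
          ∑ j ∈ range (T - i), if y j = x then (1 : ℝ) else 0 := by
        rw [cnt_eq]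
        have hT : T = i + (T - i) := by omega
        conv_lhs => rw [hT, sum_range_add]
        congr 1
        refine sum_congr rfl fun j _ => ?_
        have : (y (i + j) = h * x) = (y j = x) := by
          rw [add_comm i j, hy]
          exact propext ⟨fun hh => hinj _ _ hh, fun hh => by rw [hh]⟩
        simp only [this]
      have e2 : cnt y T x = (∑ j ∈ range (T - i), if y j = x then (1 : ℝ) else 0) +
          ∑ j ∈ Ico (T - i) T, if y j = x then (1 : ℝ) else 0 := by
        rw [cnt_eq, sum_range_add_sum_Ico _ (Nat.sub_le T i)]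
      rw [e1, e2]
      have p1 : 0 ≤ ∑ j ∈ range i, (if y j = h * x then (1 : ℝ) else 0) :=
        sum_nonneg fun j _ => by split_ifs <;> norm_num
      have p2 : 0 ≤ ∑ j ∈ Ico (T - i) T, (if y j = x then (1 : ℝ) else 0) :=
        sum_nonneg fun j _ => by split_ifs <;> norm_num
      rw [abs_le]
      constructor <;> linarith
    · have e0 : T - i = 0 := by omega
      rw [e0]
      have e1 : cnt y T (h * x) ≤ ∑ j ∈ range i, if y j = h * x then (1 : ℝ) else 0 := by
        rw [cnt_eq]
        exact sum_le_sum_of_subset_of_nonneg (range_subset_range.2 hiT)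
          fun j _ _ => by split_ifs <;> norm_num
      have e2 : cnt y T x = ∑ j ∈ Ico 0 T, if y j = x then (1 : ℝ) else 0 := by
        rw [cnt_eq, range_eq_Ico]
      have p1 := cnt_nonneg y T (h * x)
      have p2 := cnt_nonneg y T x
      rw [abs_le]
      constructor <;> linarith
  calc ∑ x, |cnt y T (h * x) - cnt y T x|
      ≤ ∑ x, ((∑ j ∈ range i, if y j = h * x then (1 : ℝ) else 0) +
        ∑ j ∈ Ico (T - i) T, if y j = x then (1 : ℝ) else 0) := sum_le_sum fun x _ => key x
    _ = (∑ x, ∑ j ∈ range i, if y j = h * x then (1 : ℝ) else 0) +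
        ∑ x, ∑ j ∈ Ico (T - i) T, if y j = x then (1 : ℝ) else 0 := sum_add_distrib
    _ ≤ i + i := by
        apply add_le_add
        · rw [sum_comm]
          calc ∑ j ∈ range i, ∑ x, (if y j = h * x then (1 : ℝ) else 0)
              ≤ ∑ j ∈ range i, (1 : ℝ) := by
                refine sum_le_sum fun j _ => ?_
                rw [← Finset.sum_filter, sum_const, nsmul_eq_mul, mul_one]
                exact_mod_cast card_le_one.2 fun a ha b hb => by
                  rw [mem_filter] at ha hb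
                  exact hinj _ _ (ha.2.symm.trans hb.2)
            _ = i := by simp
        · rw [sum_comm]
          calc ∑ j ∈ Ico (T - i) T, ∑ x, (if y j = x then (1 : ℝ) else 0)
              = ∑ j ∈ Ico (T - i) T, (1 : ℝ) := by
                refine sum_congr rfl fun j _ => ?_
                simp
            _ = ((T - (T - i) : ℕ) : ℝ) := by simp
            _ ≤ i := by
                have : T - (T - i) ≤ i := by omega
                exact_mod_cast this
    _ = 2 * i := by ring

end count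

lemma cnt_le {p : ℕ} [Fact p.Prime] (θ : ZMod p) (hθ : θ ≠ 0) (T : ℕ) (x : ZMod p) :
    cnt (fun j => θ ^ j) T x ≤ (T : ℝ) / orderOf θ + 1 := by
  classical
  have ht : 0 < orderOf θ := by
    have := orderOf_pos (Units.mk0 θ hθ)
    rwa [← orderOf_units, Units.val_mk0] at this
  have h1 : ((range T).filter fun j => θ ^ j = x).card ≤ T / orderOf θ + 1 := by
    have hinj : Set.InjOn (fun j => j / orderOf θ) ((range T).filter fun j => θ ^ j = x) := by
      intro i hi j hj hij
      have hi' := (mem_filter.1 (mem_coe.1 hi)).2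
      have hj' := (mem_filter.1 (mem_coe.1 hj)).2
      have h2 : i % orderOf θ = j % orderOf θ := by
        have h3 : θ ^ i = θ ^ j := hi'.trans hj'.symm
        set u : (ZMod p)ˣ := Units.mk0 θ hθ with hu
        have h4 : u ^ i = u ^ j := by
          apply Units.ext
          rw [Units.val_pow_eq_pow_val, Units.val_pow_eq_pow_val]
          exact h3
        have h5 := pow_inj_mod.1 h4
        have h6 : orderOf u = orderOf θ := by
          rw [← orderOf_units, hu, Units.val_mk0]
        rwa [h6] at h5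
      have h7 : i / orderOf θ = j / orderOf θ := hij
      rw [← Nat.div_add_mod i (orderOf θ), ← Nat.div_add_mod j (orderOf θ), h2, h7]
    calc ((range T).filter fun j => θ ^ j = x).card
        = (((range T).filter fun j => θ ^ j = x).image fun j => j / orderOf θ).card :=
          (card_image_of_injOn hinj).symm
      _ ≤ (range (T / orderOf θ + 1)).card := card_le_card fun k hk => by
          rw [mem_image] at hk
          obtain ⟨j, hj, rfl⟩ := hk
          rw [mem_filter, mem_range] at hj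
          rw [mem_range]
          exact Nat.lt_succ_of_le (Nat.div_le_div_right hj.1.le)
      _ = _ := card_range _
  have h2 : ((T / orderOf θ : ℕ) : ℝ) ≤ (T : ℝ) / orderOf θ := Nat.cast_div_le
  unfold cnt
  calc (((range T).filter fun j => θ ^ j = x).card : ℝ) ≤ ((T / orderOf θ + 1 : ℕ) : ℝ) := by
        exact_mod_cast h1
    _ ≤ _ := by push_cast; linarith

/-- **Exponential sums over short geometric progressions.** -/
theorem geo (ε : ℝ) (hε : 0 < ε) : ∃ δ : ℝ, 0 < δ ∧ ∃ P₀ : ℕ, ∀ p : ℕ, P₀ ≤ p → ∀ [Fact p.Prime]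
    (θ : ZMod p), θ ≠ 0 → (p : ℝ) ^ ε ≤ orderOf θ → ∀ T : ℕ, (p : ℝ) ^ ε ≤ T →
    ∀ a : ZMod p, a ≠ 0 →
      ‖∑ j ∈ range T, (ZMod.stdAddChar (a * θ ^ j) : ℂ)‖ ≤ T * (p : ℝ) ^ (-δ) := by
  classical
  obtain ⟨δ, hδ, P₀, hP⟩ := bgk (ε / 3) (by positivity)
  refine ⟨δ, hδ, max P₀ ⌈(2 : ℝ) ^ (3 / ε)⌉₊, ?_⟩
  intro p hp _ θ hθ hord T hT a ha
  have hpp : p.Prime := Fact.out
  have hp1 : (1 : ℝ) ≤ p := by exact_mod_cast hpp.one_lt.le
  have hp0 : (0 : ℝ) < p := by linarith
  have hpP := (le_max_left _ _).trans hp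
  have hp2 : (2 : ℝ) ^ (3 / ε) ≤ p := (Nat.le_ceil _).trans (by exact_mod_cast (le_max_right _ _).trans hp)
  set u : ℝ := (p : ℝ) ^ (ε / 3) with hu
  have hu2 : 2 ≤ u := by
    calc (2 : ℝ) = ((2 : ℝ) ^ (3 / ε)) ^ (ε / 3) := by
          rw [← Real.rpow_mul (by norm_num)]
          rw [show 3 / ε * (ε / 3) = 1 by field_simp, Real.rpow_one]
      _ ≤ _ := Real.rpow_le_rpow (by positivity) hp2 (by positivity)
  have hu0 : 0 < u := by linarith
  have hu3 : (p : ℝ) ^ ε = u ^ 3 := by
    rw [hu, ← Real.rpow_natCast, ← Real.rpow_mul hp0.le]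
    congr 1
    push_cast
    ring
  have hui : (p : ℝ) ^ (-(ε / 3)) = u⁻¹ := by rw [hu, Real.rpow_neg hp0.le]
  rw [hu3] at hord hT
  have hT0 : (0 : ℝ) < T := lt_of_lt_of_le (by positivity) hT
  have ht0 : (0 : ℝ) < orderOf θ := lt_of_lt_of_le (by positivity) hord
  set y : ℕ → ZMod p := fun j => θ ^ j with hy
  set μ : ZMod p → ℝ := fun x => cnt y T x / T with hμ
  have hu1 : u + 1 ≤ u ^ 3 := by nlinarith [mul_pos hu0 hu0]
  have m0 : ∀ x, 0 ≤ μ x := fun x => div_nonneg (cnt_nonneg _ _ _) hT0.le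
  have m1 : ∑ x, μ x = 1 := by
    rw [hμ, ← sum_div, cnt_sum, div_self hT0.ne']
  have m2 : ∑ x, μ x ^ 2 ≤ (p : ℝ) ^ (-(ε / 3)) := by
    rw [hui]
    have h1 : ∀ x, μ x ≤ 1 / orderOf θ + 1 / T := by
      intro x
      have := cnt_le θ hθ T x
      rw [hμ]
      show cnt y T x / T ≤ _
      rw [div_le_iff₀ hT0]
      calc cnt y T x ≤ (T : ℝ) / orderOf θ + 1 := this
        _ = (1 / orderOf θ + 1 / T) * T := by field_simp
    have h2 : 1 / (orderOf θ : ℝ) + 1 / T ≤ u⁻¹ := by
      have e1 : 1 / (orderOf θ : ℝ) ≤ 1 / u ^ 3 := one_div_le_one_div_of_le (by positivity) hord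
      have e2 : 1 / (T : ℝ) ≤ 1 / u ^ 3 := one_div_le_one_div_of_le (by positivity) hT
      have e3 : 1 / u ^ 3 + 1 / u ^ 3 ≤ u⁻¹ := by
        rw [← add_div, div_le_iff₀ (by positivity)]
        have : u⁻¹ * u ^ 3 = u ^ 2 := by field_simp
        rw [this]
        nlinarith
      linarith
    calc ∑ x, μ x ^ 2 ≤ ∑ x, u⁻¹ * μ x := sum_le_sum fun x _ => by
          rw [sq]
          exact mul_le_mul_of_nonneg_right ((h1 x).trans h2) (m0 x)
      _ = u⁻¹ := by rw [← mul_sum, m1, mul_one]
  set I : ℕ := ⌈u⌉₊ with hI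
  have hI1 : u ≤ I := Nat.le_ceil _
  have hI2 : (I : ℝ) < u + 1 := Nat.ceil_lt_add_one hu0.le
  have hIt : I ≤ orderOf θ := by
    have : (I : ℝ) ≤ orderOf θ := hI2.le.trans (hu1.trans hord)
    exact_mod_cast this
  set H : Finset (ZMod p) := (range I).image y with hH
  have hHcard : H.card = I := by
    rw [hH, card_image_of_injOn, card_range]
    intro i hi j hj hij
    rw [coe_range, Set.mem_Iio] at hi hj
    exact pow_injOn_Iio_orderOf (Set.mem_Iio.2 (lt_of_lt_of_le hi hIt))
      (Set.mem_Iio.2 (lt_of_lt_of_le hj hIt)) hij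
  have hft := hP p hpP μ m0 m1 m2 H (by
      intro h hh
      rw [hH, mem_image] at hh
      obtain ⟨i, _, rfl⟩ := hh
      exact pow_ne_zero _ hθ) (by
      rw [hHcard]
      exact hI1) (by
      intro h hh
      rw [hH, mem_image] at hh
      obtain ⟨i, hi, rfl⟩ := hh
      rw [mem_range] at hi
      have h1 := cnt_shift y T (y i) i (fun j => by rw [hy]; ring) (fun b c hbc =>
        mul_left_cancel₀ (pow_ne_zero i hθ) hbc)
      have h2 : ∑ x, |μ (y i * x) - μ x| = (∑ x, |cnt y T (y i * x) - cnt y T x|) / T := by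
        rw [sum_div]
        refine sum_congr rfl fun x _ => ?_
        rw [hμ]
        show |cnt y T (y i * x) / T - cnt y T x / T| = _
        rw [← sub_div, abs_div, abs_of_pos hT0]
      rw [h2, hui, div_le_iff₀ hT0]
      have h3 : (i : ℝ) + 1 ≤ I := by exact_mod_cast hi
      have h4 : (i : ℝ) ≤ u := by linarith
      calc (∑ x, |cnt y T (y i * x) - cnt y T x|) ≤ 2 * i := h1
        _ ≤ 2 * u := by linarith
        _ ≤ u * u := by nlinarith
        _ = u⁻¹ * u ^ 3 := by field_simp
        _ ≤ u⁻¹ * T := mul_le_mul_of_nonneg_left hT (by positivity)) a ha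
  have hsum : ft μ a = (∑ j ∈ range T, (ZMod.stdAddChar (a * θ ^ j) : ℂ)) / T := by
    have h1 := cnt_sum_mul y T (fun x => (ZMod.stdAddChar (a * x) : ℂ))
    rw [← h1, sum_div]
    unfold ft
    refine sum_congr rfl fun x _ => ?_
    rw [hμ]
    push_cast
    show (cnt y T x : ℂ) / T * (ZMod.stdAddChar (a * x) : ℂ) = _
    ring
  rw [hsum, norm_div, Complex.norm_natCast, div_le_iff₀ hT0] at hft
  linarith

end Pool.Agent.J4.H80.BGK
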