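import Pool.Agent.J4.H80.BGK.Quot

set_option autoImplicit false

/-! Few elements `ξ` have a small set `B - ξ B`, unless `B` is almost everything. -/

namespace Pool.Agent.J4.H80.BGK

open Finset
open scoped Pointwise Combinatorics.Additive

variable {p : ℕ} [Fact p.Prime]

lemma step {B : Finset (ZMod p)} (hB : B.Nonempty) {K : ℝ} (hK : ((B - B).card : ℝ) ≤ K * B.card) (hK1 : 1 ≤ K)
    {C : ℝ} (hC : K ≤ C) (X : Finset (ZMod p)) (hX : 2 ≤ X.card) (h : ∀ ξ ∈ X, Sm B C ξ) :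
    ∃ X' : Finset (ZMod p), (∀ ξ ∈ X', Sm B (C ^ 33) ξ) ∧ min ((X.card : ℝ) ^ 2) (p - 1) ≤ 2 * X'.card := by
  obtain ⟨a, ha, b, hb, c, hc, d, hd, v, hv, hmin⟩ := grow X hX
  have hC1 : 1 ≤ C := hK1.trans hC
  have hKp : K ^ 5 ≤ C ^ 5 := pow_le_pow_left₀ (by linarith) hC 5
  have hsub : ∀ x ∈ X, ∀ y ∈ X, Sm B (C ^ 7) (x - y) := by
    intro x hx y hy
    refine ((h x hx).sub hB hK (h y hy)).mono ?_
    calc C * C * K ^ 5 ≤ C * C * C ^ 5 := mul_le_mul_of_nonneg_left hKp (by positivity)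
      _ = C ^ 7 := by ring
  have hu := hsub c hc d hd
  have hv' : Sm B (C ^ 19) v := by
    rcases hv with rfl | rfl
    · exact (hsub a ha b hb).mono (pow_le_pow_right₀ hC1 (by norm_num))
    · refine ((hsub a ha b hb).add hB hK hu).mono ?_
      calc C ^ 7 * C ^ 7 * K ^ 5 ≤ C ^ 7 * C ^ 7 * C ^ 5 := mul_le_mul_of_nonneg_left hKp (by positivity)
        _ = C ^ 19 := by ring
  refine ⟨lin (c - d) v X, ?_, hmin⟩
  intro ξ hξ
  unfold lin at hξ
  rw [mem_image] at hξ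
  obtain ⟨z, hz, rfl⟩ := hξ
  rw [mem_product] at hz
  have h1 := hu.mul hB (h z.1 hz.1)
  have h2 := hv'.mul hB (h z.2 hz.2)
  refine (h1.add hB hK h2).mono ?_
  calc C ^ 7 * C * (C ^ 19 * C) * K ^ 5 ≤ C ^ 7 * C * (C ^ 19 * C) * C ^ 5 :=
        mul_le_mul_of_nonneg_left hKp (by positivity)
    _ = C ^ 33 := by ring

lemma sq_ge (y : ℝ) (hy : 4 ≤ y) : y ^ (3 / 2 : ℝ) ≤ y ^ 2 / 2 := by
  have h1 : y ^ (2 : ℝ) = y ^ (3 / 2 : ℝ) * y ^ (1 / 2 : ℝ) := by
    rw [← Real.rpow_add (by linarith)]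
    norm_num
  have h2 : 2 ≤ y ^ (1 / 2 : ℝ) := by
    rw [← Real.sqrt_eq_rpow]
    exact Real.le_sqrt_of_sq_le (by linarith)
  have h3 : y ^ 2 = y ^ (2 : ℝ) := by norm_cast
  rw [h3, h1]
  have h4 : 0 ≤ y ^ (3 / 2 : ℝ) := by positivity
  nlinarith

theorem iter {B : Finset (ZMod p)} (hB : B.Nonempty) {K : ℝ} (hK : ((B - B).card : ℝ) ≤ K * B.card) (hK1 : 1 ≤ K)
    {C : ℝ} (hC : K ≤ C) (hp : 10 ≤ p) (x : ℝ) (hx : 4 ≤ x) (X : Finset (ZMod p)) (hX : x ≤ X.card)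
    (h : ∀ ξ ∈ X, Sm B C ξ) (t : ℕ) :
    ∃ X' : Finset (ZMod p), (∀ ξ ∈ X', Sm B (C ^ (33 ^ t)) ξ) ∧
      min (x ^ ((3 / 2 : ℝ) ^ t)) (((p : ℝ) - 1) / 2) ≤ X'.card := by
  have hpr : (10 : ℝ) ≤ p := by exact_mod_cast hp
  have hC1 : 1 ≤ C := hK1.trans hC
  induction t with
  | zero =>
    refine ⟨X, fun ξ hξ => by rw [pow_zero, pow_one]; exact h ξ hξ, ?_⟩
    rw [pow_zero, Real.rpow_one]
    exact (min_le_left _ _).trans hX
  | succ t ih =>
    obtain ⟨Y, hY1, hY2⟩ := ih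
    obtain ⟨y, hy⟩ : ∃ y : ℝ, y = x ^ ((3 / 2 : ℝ) ^ t) := ⟨_, rfl⟩
    rw [← hy] at hY2
    have hy4 : 4 ≤ y := by
      rw [hy]
      calc (4 : ℝ) ≤ x := hx
        _ = x ^ (1 : ℝ) := (Real.rpow_one x).symm
        _ ≤ _ := Real.rpow_le_rpow_of_exponent_le (by linarith) (one_le_pow₀ (by norm_num))
    have hYc : (4 : ℝ) ≤ Y.card := by
      refine le_trans ?_ hY2
      exact le_min hy4 (by linarith)
    obtain ⟨Z, hZ1, hZ2⟩ := step hB hK hK1 (C := C ^ (33 ^ t)) (hC.trans (le_self_pow₀ hC1 (by positivity))) Y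
      (by
        have : (2 : ℝ) ≤ Y.card := by linarith
        exact_mod_cast this) hY1
    refine ⟨Z, fun ξ hξ => ?_, ?_⟩
    · have := hZ1 ξ hξ
      rwa [← pow_mul, ← pow_succ] at this
    · have h1 : x ^ ((3 / 2 : ℝ) ^ (t + 1)) = y ^ (3 / 2 : ℝ) := by
        rw [hy, ← Real.rpow_mul (by linarith), pow_succ]
      rw [h1]
      have h2 := sq_ge y hy4
      rcases min_le_iff.1 hY2 with h3 | h3
      · have h4 : y ^ 2 ≤ (Y.card : ℝ) ^ 2 := pow_le_pow_left₀ (by linarith) h3 2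
        rcases min_le_iff.1 hZ2 with h5 | h5
        · exact (min_le_left _ _).trans (by linarith)
        · exact (min_le_right _ _).trans (by linarith)
      · refine (min_le_right _ _).trans ?_
        have h4 : (p : ℝ) - 1 ≤ (Y.card : ℝ) ^ 2 := by nlinarith
        rw [min_eq_right h4] at hZ2
        linarith

/-- few `ξ` have a small set `B - ξ B` -/
theorem few {B : Finset (ZMod p)} {C : ℝ} (hC : 1 ≤ C) (hBC : 2 * C ≤ B.card) (X : Finset (ZMod p))
    (h : ∀ ξ ∈ X, Sm B C ξ) : (X.card : ℝ) ≤ 2 * C * B.card := by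
  classical
  obtain ⟨b, hb⟩ : ∃ b : ℝ, b = B.card := ⟨_, rfl⟩
  obtain ⟨n, hn⟩ : ∃ n : ℝ, n = X.card := ⟨_, rfl⟩
  rw [← hb, ← hn]
  rw [← hb] at hBC
  have hb0 : 0 < b := by linarith
  obtain ⟨c, hc⟩ : ∃ c : ZMod p → ℕ, c = fun ξ => (((B ×ˢ B) ×ˢ (B ×ˢ B)).filter
    (fun q => q.1.1 - ξ * q.1.2 = q.2.1 - ξ * q.2.2)).card := ⟨_, rfl⟩
  have h1 : ∀ ξ ∈ X, b ^ 3 ≤ C * c ξ := by
    intro ξ hξ
    have h2 := coll (B ×ˢ B) (fun z : ZMod p × ZMod p => z.1 - ξ * z.2)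
    have h3 : (B ×ˢ B).image (fun z : ZMod p × ZMod p => z.1 - ξ * z.2) = B - dil ξ B := by
      ext x
      simp only [mem_image, mem_product, mem_sub, mem_dil]
      constructor
      · rintro ⟨z, hz, rfl⟩
        exact ⟨z.1, hz.1, _, ⟨z.2, hz.2, rfl⟩, rfl⟩
      · rintro ⟨y, hy, _, ⟨w, hw, rfl⟩, rfl⟩
        exact ⟨(y, w), ⟨hy, hw⟩, rfl⟩
    rw [h3, card_product] at h2
    have h4 : b ^ 4 ≤ (B - dil ξ B).card * (c ξ : ℝ) := by
      rw [hb, hc]
      calc ((B.card : ℕ) : ℝ) ^ 4 = (((B.card * B.card) ^ 2 : ℕ) : ℝ) := by push_cast; ring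
        _ ≤ _ := by exact_mod_cast h2
    have h5 : b ^ 3 * b ≤ (C * c ξ) * b := by
      calc b ^ 3 * b = b ^ 4 := by ring
        _ ≤ _ := h4
        _ ≤ (C * b) * c ξ := by
            apply mul_le_mul_of_nonneg_right _ (Nat.cast_nonneg _)
            rw [hb]
            exact h ξ hξ
        _ = _ := by ring
    exact le_of_mul_le_mul_right h5 hb0
  have h2 : (∑ ξ ∈ X, c ξ) ≤ X.card * B.card ^ 2 + B.card ^ 4 := by
    rw [hc]
    simp only [card_filter]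
    rw [sum_comm]
    have hcard : ((B ×ˢ B) ×ˢ (B ×ˢ B)).card = B.card ^ 4 := by
      rw [card_product, card_product]
      ring
    have h3 : ∀ q ∈ (B ×ˢ B) ×ˢ (B ×ˢ B),
        (∑ ξ ∈ X, if q.1.1 - ξ * q.1.2 = q.2.1 - ξ * q.2.2 then 1 else 0) ≤
        (if q.1 = q.2 then X.card else 0) + 1 := by
      intro q _
      by_cases hq : q.1 = q.2
      · rw [if_pos hq]
        refine le_trans (sum_le_card_nsmul _ _ 1 fun ξ _ => ?_) ?_
        · split_ifs <;> omega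
        · rw [smul_eq_mul, mul_one]
          omega
      · rw [if_neg hq, zero_add, ← card_filter]
        rw [card_le_one]
        intro ξ hξ η hη
        rw [mem_filter] at hξ hη
        have e1 := hξ.2
        have e2 := hη.2
        have e3 : (ξ - η) * (q.1.2 - q.2.2) = 0 := by linear_combination e2 - e1
        rcases mul_eq_zero.1 e3 with h | h
        · exact sub_eq_zero.1 h
        · exfalso
          apply hq
          have h5 := sub_eq_zero.1 h
          refine Prod.ext ?_ h5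
          rw [h5] at e1
          linear_combination e1
    refine (sum_le_sum h3).trans ?_
    rw [sum_add_distrib, sum_const, hcard, smul_eq_mul, mul_one]
    apply Nat.add_le_add_right
    rw [← sum_filter, sum_const, smul_eq_mul, mul_comm]
    apply Nat.mul_le_mul_left
    have h2 : (((B ×ˢ B) ×ˢ (B ×ˢ B)).filter (fun q => q.1 = q.2)).card ≤ (B ×ˢ B).card := by
      apply card_le_card_of_injOn (fun q => q.1)
      · intro q hq
        rw [mem_coe, mem_filter, mem_product] at hq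
        exact mem_coe.2 hq.1.1
      · intro q hq r hr h
        rw [mem_coe, mem_filter, mem_product] at hq hr
        have h' : q.1 = r.1 := h
        exact Prod.ext h' (by rw [← hq.2, ← hr.2, h'])
    refine h2.trans ?_
    rw [card_product]
    exact le_of_eq (by ring)
  have h3 : n * b ^ 3 ≤ C * (n * b ^ 2 + b ^ 4) := by
    calc n * b ^ 3 = ∑ ξ ∈ X, b ^ 3 := by rw [sum_const, nsmul_eq_mul, hn]
      _ ≤ ∑ ξ ∈ X, C * (c ξ : ℝ) := sum_le_sum h1
      _ = C * ((∑ ξ ∈ X, c ξ : ℕ) : ℝ) := by rw [← mul_sum]; push_cast; rfl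
      _ ≤ C * (n * b ^ 2 + b ^ 4) := by
          apply mul_le_mul_of_nonneg_left _ (by linarith)
          rw [hn, hb]
          exact_mod_cast h2
  have hn0 : 0 ≤ n := by rw [hn]; exact Nat.cast_nonneg _
  have h4 : n * (2 * C) * b ^ 2 ≤ n * b * b ^ 2 := by
    apply mul_le_mul_of_nonneg_right _ (by positivity)
    exact mul_le_mul_of_nonneg_left hBC hn0
  have h5 : n * b ^ 3 ≤ (2 * C * b) * b ^ 3 := by nlinarith
  exact le_of_mul_le_mul_right h5 (by positivity)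

end Pool.Agent.J4.H80.BGK
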