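import Pool.Agent.J4.H80.BGK.Ring

set_option autoImplicit false

/-! Growth: `u X + v X` is large for some `u`, `v` formed from few elements of `X`. -/

namespace Pool.Agent.J4.H80.BGK

open Finset
open scoped Pointwise Combinatorics.Additive

variable {p : ℕ} [Fact p.Prime]

lemma coll {α β : Type*} [DecidableEq α] [DecidableEq β] (S : Finset α) (f : α → β) :
    S.card ^ 2 ≤ (S.image f).card * ((S ×ˢ S).filter (fun q => f q.1 = f q.2)).card := by
  have h1 : S.card = ∑ b ∈ S.image f, (S.filter (fun a => f a = b)).card := by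
    apply card_eq_sum_card_fiberwise
    intro a ha
    exact mem_coe.2 (mem_image_of_mem f (mem_coe.1 ha))
  have h2 : ((S ×ˢ S).filter (fun q => f q.1 = f q.2)).card =
      ∑ b ∈ S.image f, (S.filter (fun a => f a = b)).card ^ 2 := by
    rw [card_eq_sum_card_fiberwise (f := fun q : α × α => f q.1) (t := S.image f)]
    · apply sum_congr rfl
      intro b _
      rw [sq, ← card_product]
      congr 1
      ext q
      simp only [mem_filter, mem_product]
      constructor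
      · rintro ⟨⟨⟨h1, h2⟩, h3⟩, h4⟩
        exact ⟨⟨h1, h4⟩, h2, h3 ▸ h4⟩
      · rintro ⟨⟨h1, h2⟩, h3, h4⟩
        exact ⟨⟨⟨h1, h3⟩, h2.trans h4.symm⟩, h2⟩
    · intro q hq
      rw [mem_coe, mem_filter, mem_product] at hq
      exact mem_coe.2 (mem_image_of_mem f hq.1.1)
  rw [h2]
  conv_lhs => rw [h1]
  exact sq_sum_le_card_mul_sum_sq

/-- the set `u X + v X` -/
def lin (u v : ZMod p) (X : Finset (ZMod p)) : Finset (ZMod p) := (X ×ˢ X).image (fun z => u * z.1 + v * z.2)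

lemma lin_dil (u ζ : ZMod p) (X : Finset (ZMod p)) : lin u (u * ζ) X = dil u (lin 1 ζ X) := by
  ext x
  unfold lin
  simp only [mem_dil, mem_image]
  constructor
  · rintro ⟨z, hz, rfl⟩
    exact ⟨_, ⟨z, hz, rfl⟩, by ring⟩
  · rintro ⟨_, ⟨z, hz, rfl⟩, rfl⟩
    exact ⟨z, hz, by ring⟩

/-- the number of collisions -/
def col (ξ : ZMod p) (X : Finset (ZMod p)) : ℕ :=
  (((X ×ˢ X) ×ˢ (X ×ˢ X)).filter (fun q => (1 : ZMod p) * q.1.1 + ξ * q.1.2 = 1 * q.2.1 + ξ * q.2.2)).card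

lemma col_lin (ξ : ZMod p) (X : Finset (ZMod p)) : X.card ^ 4 ≤ (lin 1 ξ X).card * col ξ X := by
  have h := coll (X ×ˢ X) (fun z : ZMod p × ZMod p => (1 : ZMod p) * z.1 + ξ * z.2)
  rw [card_product] at h
  calc X.card ^ 4 = (X.card * X.card) ^ 2 := by ring
    _ ≤ _ := h

lemma sum_col (X : Finset (ZMod p)) :
    ∑ ξ ∈ univ.erase (0 : ZMod p), col ξ X ≤ (p - 1) * X.card ^ 2 + X.card ^ 4 := by
  classical
  unfold col
  simp only [card_filter]
  rw [sum_comm]
  have hc : ((X ×ˢ X) ×ˢ (X ×ˢ X)).card = X.card ^ 4 := by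
    rw [card_product, card_product]
    ring
  have h1 : ∀ q ∈ (X ×ˢ X) ×ˢ (X ×ˢ X),
      (∑ ξ ∈ univ.erase (0 : ZMod p), if (1 : ZMod p) * q.1.1 + ξ * q.1.2 = 1 * q.2.1 + ξ * q.2.2 then 1 else 0) ≤
      (if q.1 = q.2 then (p - 1) else 0) + 1 := by
    intro q _
    by_cases hq : q.1 = q.2
    · rw [if_pos hq]
      refine le_trans (sum_le_card_nsmul _ _ 1 fun ξ _ => ?_) ?_
      · split_ifs <;> omega
      · rw [card_erase_of_mem (mem_univ _), card_univ, ZMod.card, smul_eq_mul, mul_one]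
        omega
    · rw [if_neg hq, zero_add, ← card_filter]
      rw [card_le_one]
      intro ξ hξ η hη
      rw [mem_filter] at hξ hη
      have e1 := hξ.2
      have e2 := hη.2
      have e3 : (ξ - η) * (q.1.2 - q.2.2) = 0 := by linear_combination e1 - e2
      rcases mul_eq_zero.1 e3 with h | h
      · exact sub_eq_zero.1 h
      · exfalso
        apply hq
        have h5 := sub_eq_zero.1 h
        refine Prod.ext ?_ h5
        rw [h5] at e1
        linear_combination e1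
  refine (sum_le_sum h1).trans ?_
  rw [sum_add_distrib, sum_const, hc, smul_eq_mul, mul_one]
  apply Nat.add_le_add_right
  rw [← sum_filter, sum_const, smul_eq_mul, mul_comm]
  apply Nat.mul_le_mul_left
  have h2 : (((X ×ˢ X) ×ˢ (X ×ˢ X)).filter (fun q => q.1 = q.2)).card ≤ (X ×ˢ X).card := by
    apply card_le_card_of_injOn (fun q => q.1)
    · intro q hq
      rw [mem_coe, mem_filter, mem_product] at hq
      exact mem_coe.2 hq.1.1
    · intro q hq r hr h
      rw [mem_coe, mem_filter, mem_product] at hq hr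
      have h' : q.1 = r.1 := h
      exact Prod.ext h' (by rw [← hq.2, ← hr.2, h'])
  refine h2.trans ?_
  rw [card_product]
  exact le_of_eq (by ring)

/-- one step of growth -/
theorem grow (X : Finset (ZMod p)) (hX : 2 ≤ X.card) :
    ∃ a ∈ X, ∃ b ∈ X, ∃ c ∈ X, ∃ d ∈ X, ∃ v : ZMod p, (v = a - b ∨ v = a - b + (c - d)) ∧
      min ((X.card : ℝ) ^ 2) (p - 1) ≤ 2 * (lin (c - d) v X).card := by
  classical
  have hp : p.Prime := Fact.out
  have hp2 : (2 : ℝ) ≤ p := by exact_mod_cast hp.two_le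
  obtain ⟨R, hR⟩ : ∃ R : ZMod p → Prop, R = fun ξ => ∃ a ∈ X, ∃ b ∈ X, ∃ c ∈ X, ∃ d ∈ X, c ≠ d ∧ ξ * (c - d) = a - b :=
    ⟨_, rfl⟩
  have hXc : (2 : ℝ) ≤ X.card := by exact_mod_cast hX
  by_cases hall : ∀ ξ, R ξ
  · -- case 1
    have h1 := sum_col X
    obtain ⟨ξ, hξ, hcol⟩ : ∃ ξ ∈ univ.erase (0 : ZMod p), (p - 1) * col ξ X ≤ (p - 1) * X.card ^ 2 + X.card ^ 4 := by
      by_contra hcon
      push Not at hcon
      have h2 : ∑ ξ ∈ univ.erase (0 : ZMod p), ((p - 1) * X.card ^ 2 + X.card ^ 4) <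
          ∑ ξ ∈ univ.erase (0 : ZMod p), (p - 1) * col ξ X := by
        apply sum_lt_sum_of_nonempty
        · exact ⟨1, mem_erase.2 ⟨one_ne_zero, mem_univ _⟩⟩
        · exact hcon
      rw [sum_const, card_erase_of_mem (mem_univ _), card_univ, ZMod.card, smul_eq_mul, ← mul_sum] at h2
      exact absurd (Nat.mul_le_mul_left (p - 1) h1) (not_le.2 h2)
    have h3 := col_lin ξ X
    obtain ⟨a, ha, b, hb, c, hc, d, hd, hcd, he⟩ := hR ▸ hall ξ
    refine ⟨a, ha, b, hb, c, hc, d, hd, a - b, Or.inl rfl, ?_⟩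
    have hcd' : c - d ≠ 0 := sub_ne_zero.2 hcd
    have h4 : (lin (c - d) (a - b) X).card = (lin 1 ξ X).card := by
      rw [← he, mul_comm ξ, lin_dil, card_dil hcd']
    rw [h4]
    obtain ⟨M, hM⟩ : ∃ M : ℝ, M = (lin 1 ξ X).card := ⟨_, rfl⟩
    obtain ⟨x, hx⟩ : ∃ x : ℝ, x = X.card := ⟨_, rfl⟩
    obtain ⟨k, hk⟩ : ∃ k : ℝ, k = col ξ X := ⟨_, rfl⟩
    have h5 : x ^ 4 ≤ M * k := by rw [hx, hM, hk]; exact_mod_cast h3
    have hp1 : ((p - 1 : ℕ) : ℝ) = p - 1 := by
      rw [Nat.cast_sub hp.one_le, Nat.cast_one]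
    have h6 : ((p : ℝ) - 1) * k ≤ (p - 1) * x ^ 2 + x ^ 4 := by
      rw [hx, hk, ← hp1]
      exact_mod_cast hcol
    rw [← hM, ← hx]
    have hM0 : 0 ≤ M := by rw [hM]; exact Nat.cast_nonneg _
    have hx2 : 2 ≤ x := by rw [hx]; exact hXc
    obtain ⟨P, hP⟩ : ∃ P : ℝ, P = (p : ℝ) - 1 := ⟨_, rfl⟩
    have hP1 : 1 ≤ P := by rw [hP]; linarith
    rw [← hP] at h6 ⊢
    have h7 : P * x ^ 2 ≤ M * (P + x ^ 2) := by
      have h8 : P * x ^ 4 ≤ M * (P * x ^ 2 + x ^ 4) := by
        calc P * x ^ 4 ≤ P * (M * k) := mul_le_mul_of_nonneg_left h5 (by linarith)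
          _ = M * (P * k) := by ring
          _ ≤ _ := mul_le_mul_of_nonneg_left h6 hM0
      have h9 : (P * x ^ 2) * x ^ 2 ≤ (M * (P + x ^ 2)) * x ^ 2 := by
        calc (P * x ^ 2) * x ^ 2 = P * x ^ 4 := by ring
          _ ≤ _ := h8
          _ = _ := by ring
      exact le_of_mul_le_mul_right h9 (by positivity)
    rcases le_total (x ^ 2) P with h | h
    · rw [min_eq_left h]
      have h10 : P * x ^ 2 ≤ (2 * M) * P := by
        refine h7.trans ?_
        nlinarith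
      have : x ^ 2 * P ≤ (2 * M) * P := by linarith
      exact le_of_mul_le_mul_right this (by linarith)
    · rw [min_eq_right h]
      have h10 : P * x ^ 2 ≤ (2 * M) * x ^ 2 := by
        refine h7.trans ?_
        nlinarith
      exact le_of_mul_le_mul_right h10 (by positivity)
  · -- case 2
    push Not at hall
    obtain ⟨ζ₀, hζ₀⟩ := hall
    obtain ⟨c₀, hc₀, d₀, hd₀, hcd₀⟩ := one_lt_card.1 (show 1 < X.card by omega)
    have hR0 : R 0 := by
      rw [hR]
      exact ⟨c₀, hc₀, c₀, hc₀, c₀, hc₀, d₀, hd₀, hcd₀, by ring⟩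
    obtain ⟨ξ, hξ, hξ1⟩ : ∃ ξ, R ξ ∧ ¬ R (ξ + 1) := by
      by_contra hcon
      push Not at hcon
      have h1 : ∀ n : ℕ, R (n : ZMod p) := by
        intro n
        induction n with
        | zero => rw [Nat.cast_zero]; exact hR0
        | succ n ih => rw [Nat.cast_succ]; exact hcon _ ih
      obtain ⟨n, hn⟩ := ZMod.natCast_zmod_surjective ζ₀
      exact hζ₀ (hn ▸ h1 n)
    rw [hR] at hξ
    obtain ⟨a, ha, b, hb, c, hc, d, hd, hcd, he⟩ := hξ
    refine ⟨a, ha, b, hb, c, hc, d, hd, a - b + (c - d), Or.inr rfl, ?_⟩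
    have hcd' : c - d ≠ 0 := sub_ne_zero.2 hcd
    have h4 : (lin (c - d) (a - b + (c - d)) X).card = (lin 1 (ξ + 1) X).card := by
      rw [← he, show ξ * (c - d) + (c - d) = (c - d) * (ξ + 1) by ring, lin_dil, card_dil hcd']
    rw [h4]
    have h5 : (lin 1 (ξ + 1) X).card = X.card ^ 2 := by
      unfold lin
      rw [card_image_of_injOn, card_product, sq]
      intro z hz w hw h
      rw [mem_coe, mem_product] at hz hw
      have h' : (1 : ZMod p) * z.1 + (ξ + 1) * z.2 = 1 * w.1 + (ξ + 1) * w.2 := h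
      by_cases h6 : z.2 = w.2
      · refine Prod.ext ?_ h6
        rw [h6] at h'
        linear_combination h'
      · exfalso
        apply hξ1
        rw [hR]
        exact ⟨w.1, hw.1, z.1, hz.1, z.2, hz.2, w.2, hw.2, h6, by linear_combination h'⟩
    rw [h5]
    push_cast
    have := min_le_left ((X.card : ℝ) ^ 2) ((p : ℝ) - 1)
    have h7 : 0 ≤ (X.card : ℝ) ^ 2 := by positivity
    linarith

end Pool.Agent.J4.H80.BGK
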