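import Mathlib

set_option autoImplicit false

/-! The dilates `ξ` for which `B - ξ B` is small: closure under sums, differences and products. -/

namespace Pool.Agent.J4.H80.BGK

open Finset
open scoped Pointwise Combinatorics.Additive

variable {p : ℕ} [Fact p.Prime]

/-- the dilate `ξ B` -/
def dil (ξ : ZMod p) (B : Finset (ZMod p)) : Finset (ZMod p) := B.image (fun x => ξ * x)

lemma mem_dil {ξ x : ZMod p} {B : Finset (ZMod p)} : x ∈ dil ξ B ↔ ∃ b ∈ B, ξ * b = x := by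
  unfold dil
  rw [mem_image]

lemma card_dil {ξ : ZMod p} (hξ : ξ ≠ 0) (B : Finset (ZMod p)) : (dil ξ B).card = B.card :=
  card_image_of_injective _ (mul_right_injective₀ hξ)

lemma dil_sub (ξ : ZMod p) (A B : Finset (ZMod p)) : dil ξ (A - B) = dil ξ A - dil ξ B := by
  ext x
  simp only [mem_dil, mem_sub]
  constructor
  · rintro ⟨_, ⟨a, ha, b, hb, rfl⟩, rfl⟩
    exact ⟨_, ⟨a, ha, rfl⟩, _, ⟨b, hb, rfl⟩, by ring⟩
  · rintro ⟨_, ⟨a, ha, rfl⟩, _, ⟨b, hb, rfl⟩, rfl⟩
    exact ⟨_, ⟨a, ha, b, hb, rfl⟩, by ring⟩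

lemma card_sub_comm (A B : Finset (ZMod p)) : (A - B).card = (B - A).card := by
  rw [← card_neg, neg_sub]

lemma dil_dil (ξ η : ZMod p) (B : Finset (ZMod p)) : dil ξ (dil η B) = dil (ξ * η) B := by
  ext x
  simp only [mem_dil]
  constructor
  · rintro ⟨b, ⟨c, hc, rfl⟩, rfl⟩
    exact ⟨c, hc, by ring⟩
  · rintro ⟨c, hc, rfl⟩
    exact ⟨η * c, ⟨c, hc, rfl⟩, by ring⟩

lemma dil_nonempty {ξ : ZMod p} {B : Finset (ZMod p)} (hB : B.Nonempty) : (dil ξ B).Nonempty :=
  hB.image _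

/-- `|B - ξ B| ≤ C |B|` -/
def Sm (B : Finset (ZMod p)) (C : ℝ) (ξ : ZMod p) : Prop := ((B - dil ξ B).card : ℝ) ≤ C * B.card

lemma Sm.one_le {B : Finset (ZMod p)} (hB : B.Nonempty) {C : ℝ} {ξ : ZMod p} (h : Sm B C ξ) : 1 ≤ C := by
  have h1 : B.card ≤ (B - dil ξ B).card := card_le_card_sub_right (dil_nonempty hB)
  have h2 : (0 : ℝ) < B.card := by exact_mod_cast hB.card_pos
  unfold Sm at h
  have h3 : (1 : ℝ) * B.card ≤ C * B.card := by
    rw [one_mul]
    exact le_trans (by exact_mod_cast h1) h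
  exact le_of_mul_le_mul_right h3 h2

lemma Sm.mono {B : Finset (ZMod p)} {C C' : ℝ} (hC : C ≤ C') {ξ : ZMod p} (h : Sm B C ξ) : Sm B C' ξ :=
  le_trans h (mul_le_mul_of_nonneg_right hC (Nat.cast_nonneg _))

lemma Sm.mul {B : Finset (ZMod p)} (hB : B.Nonempty) {C C' : ℝ} {ξ η : ZMod p} (h : Sm B C ξ) (h' : Sm B C' η) :
    Sm B (C * C') (ξ * η) := by
  have hC := h.one_le hB
  have hC' := h'.one_le hB
  have hB0 : (0 : ℝ) < B.card := by exact_mod_cast hB.card_pos
  by_cases hξ : ξ = 0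
  · subst hξ
    rw [zero_mul]
    have h1 : (B - dil 0 B).card ≤ B.card := by
      have h2 : dil (0 : ZMod p) B ⊆ {0} := by
        intro x hx
        rw [mem_dil] at hx
        obtain ⟨b, _, rfl⟩ := hx
        rw [zero_mul, mem_singleton]
      refine (card_le_card (sub_subset_sub_left h2)).trans ?_
      refine (card_sub_le).trans ?_
      rw [card_singleton, mul_one]
    unfold Sm
    calc ((B - dil 0 B).card : ℝ) ≤ 1 * B.card := by rw [one_mul]; exact_mod_cast h1
      _ ≤ (C * C') * B.card := by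
          apply mul_le_mul_of_nonneg_right _ hB0.le
          nlinarith
  · have h1 := Finset.ruzsa_triangle_inequality_sub_sub_sub B (dil ξ B) (dil (ξ * η) B)
    rw [card_dil hξ, ← dil_dil, ← dil_sub, card_dil hξ, card_sub_comm (dil η B) B] at h1
    have h2 : ((B - dil ξ (dil η B)).card : ℝ) * B.card ≤ (C * B.card) * (C' * B.card) := by
      calc ((B - dil ξ (dil η B)).card : ℝ) * B.card ≤ (B - dil ξ B).card * (B - dil η B).card := by
            exact_mod_cast h1
        _ ≤ _ := mul_le_mul h h' (Nat.cast_nonneg _) (by positivity)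
    unfold Sm
    rw [← dil_dil]
    have h3 : ((B - dil ξ (dil η B)).card : ℝ) * B.card ≤ (C * C' * B.card) * B.card := by
      refine h2.trans (le_of_eq (by ring))
    exact le_of_mul_le_mul_right h3 hB0

lemma cover {B : Finset (ZMod p)} (hB : B.Nonempty) {C : ℝ} {ξ : ZMod p} (h : Sm B C ξ) :
    ∃ F : Finset (ZMod p), (F.card : ℝ) ≤ C ∧ dil ξ B ⊆ F + (B - B) := by
  have h1 : ((dil ξ B + (-B)).card : ℝ) ≤ C * (-B).card := by
    rw [card_neg, ← sub_eq_add_neg, ← card_neg (dil ξ B - B), neg_sub]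
    exact h
  obtain ⟨F, _, hF, hF2⟩ := Finset.ruzsa_covering_add hB.neg h1
  refine ⟨F, hF, hF2.trans (subset_of_eq ?_)⟩
  rw [sub_neg_eq_add, sub_eq_add_neg, add_comm (-B) B]

lemma pl {B : Finset (ZMod p)} (hB : B.Nonempty) {K : ℝ} (hK : ((B - B).card : ℝ) ≤ K * B.card) :
    ((B + B + B - (B + B)).card : ℝ) ≤ K ^ 5 * B.card := by
  have hB0 : (0 : ℝ) < B.card := by exact_mod_cast hB.card_pos
  have h := Finset.pluennecke_ruzsa_inequality_nsmul_sub_nsmul_sub hB B (1 + 1 + 1) (1 + 1)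
  rw [succ_nsmul, succ_nsmul, one_nsmul] at h
  have h0 := (NNRat.cast_le (K := ℝ)).2 h
  have h1 : ((B + B + B - (B + B)).card : ℝ) ≤ (((B - B).card : ℝ) / B.card) ^ (3 + 2) * B.card := by
    push_cast at h0
    exact h0
  refine h1.trans ?_
  apply mul_le_mul_of_nonneg_right _ hB0.le
  apply pow_le_pow_left₀ (by positivity)
  rw [div_le_iff₀ hB0]
  exact hK

lemma Sm.add {B : Finset (ZMod p)} (hB : B.Nonempty) {K : ℝ} (hK : ((B - B).card : ℝ) ≤ K * B.card)
    {C C' : ℝ} {ξ η : ZMod p} (h : Sm B C ξ) (h' : Sm B C' η) : Sm B (C * C' * K ^ 5) (ξ + η) := by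
  have hC := h.one_le hB
  have hC' := h'.one_le hB
  obtain ⟨F, hF, hF2⟩ := cover hB h
  obtain ⟨F', hF', hF'2⟩ := cover hB h'
  have h1 : dil (ξ + η) B ⊆ dil ξ B + dil η B := by
    intro x hx
    rw [mem_dil] at hx
    obtain ⟨b, hb, rfl⟩ := hx
    rw [add_mul]
    exact add_mem_add (mem_dil.2 ⟨b, hb, rfl⟩) (mem_dil.2 ⟨b, hb, rfl⟩)
  have h2 : B - dil (ξ + η) B ⊆ (-(F + F')) + (B + B + B - (B + B)) := by
    refine (sub_subset_sub_left (h1.trans (add_subset_add hF2 hF'2))).trans (subset_of_eq ?_)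
    simp only [sub_eq_add_neg, neg_add, neg_neg]
    ac_rfl
  unfold Sm
  calc ((B - dil (ξ + η) B).card : ℝ) ≤ ((-(F + F')) + (B + B + B - (B + B))).card := by
        exact_mod_cast card_le_card h2
    _ ≤ ((-(F + F')).card : ℝ) * (B + B + B - (B + B)).card := by exact_mod_cast card_add_le
    _ ≤ (F.card * F'.card) * (K ^ 5 * B.card) := by
        apply mul_le_mul _ (pl hB hK) (Nat.cast_nonneg _) (by positivity)
        rw [card_neg]
        exact_mod_cast card_add_le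
    _ ≤ (C * C') * (K ^ 5 * B.card) := by
        apply mul_le_mul_of_nonneg_right _ ((Nat.cast_nonneg _).trans (pl hB hK))
        exact mul_le_mul hF hF' (Nat.cast_nonneg _) (by linarith)
    _ = _ := by ring

lemma Sm.sub {B : Finset (ZMod p)} (hB : B.Nonempty) {K : ℝ} (hK : ((B - B).card : ℝ) ≤ K * B.card)
    {C C' : ℝ} {ξ η : ZMod p} (h : Sm B C ξ) (h' : Sm B C' η) : Sm B (C * C' * K ^ 5) (ξ - η) := by
  have hC := h.one_le hB
  have hC' := h'.one_le hB
  obtain ⟨F, hF, hF2⟩ := cover hB h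
  obtain ⟨F', hF', hF'2⟩ := cover hB h'
  have h1 : dil (ξ - η) B ⊆ dil ξ B - dil η B := by
    intro x hx
    rw [mem_dil] at hx
    obtain ⟨b, hb, rfl⟩ := hx
    rw [sub_mul]
    exact sub_mem_sub (mem_dil.2 ⟨b, hb, rfl⟩) (mem_dil.2 ⟨b, hb, rfl⟩)
  have h2 : B - dil (ξ - η) B ⊆ (-(F - F')) + (B + B + B - (B + B)) := by
    refine (sub_subset_sub_left (h1.trans (sub_subset_sub hF2 hF'2))).trans (subset_of_eq ?_)
    simp only [sub_eq_add_neg, neg_add, neg_neg]
    ac_rfl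
  unfold Sm
  calc ((B - dil (ξ - η) B).card : ℝ) ≤ ((-(F - F')) + (B + B + B - (B + B))).card := by
        exact_mod_cast card_le_card h2
    _ ≤ ((-(F - F')).card : ℝ) * (B + B + B - (B + B)).card := by exact_mod_cast card_add_le
    _ ≤ (F.card * F'.card) * (K ^ 5 * B.card) := by
        apply mul_le_mul _ (pl hB hK) (Nat.cast_nonneg _) (by positivity)
        rw [card_neg]
        exact_mod_cast card_sub_le
    _ ≤ (C * C') * (K ^ 5 * B.card) := by
        apply mul_le_mul_of_nonneg_right _ ((Nat.cast_nonneg _).trans (pl hB hK))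
        exact mul_le_mul hF hF' (Nat.cast_nonneg _) (by linarith)
    _ = _ := by ring

end Pool.Agent.J4.H80.BGK
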